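import Pool.Agent.H442R2.KF.Inc

/-! # Fourier coefficients of arithmetic progressions modulo `n` -/

set_option autoImplicit false

open Finset

namespace Pool.Agent.Q130.PV

open Pool.Agent.H442R2.KF

/-- sum over `ZMod n` as a sum over representatives -/
lemma sum_zmod (n : ℕ) [NeZero n] (F : ZMod n → ℝ) :
    ∑ w : ZMod n, F w = ∑ v ∈ range n, F (v : ZMod n) := by
  refine sum_bij' (fun w _ => w.val) (fun v _ => (v : ZMod n)) ?_ ?_ ?_ ?_ ?_
  · intro w _; exact mem_range.2 (ZMod.val_lt w)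
  · intro v _; exact mem_univ _
  · intro w _; exact ZMod.natCast_zmod_val w
  · intro v hv; exact ZMod.val_natCast_of_lt (mem_range.1 hv)
  · intro w _
    show F w = F ((w.val : ℕ) : ZMod n)
    rw [ZMod.natCast_zmod_val]

lemma sum_periodic (d m : ℕ) (G : ℕ → ℝ) (hG : ∀ x, G (m + x) = G x) :
    ∑ x ∈ range (d * m), G x = d * ∑ x ∈ range m, G x := by
  have hG' : ∀ k x, G (k * m + x) = G x := by
    intro k
    induction k with
    | zero => intro x; simp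
    | succ k ih => intro x; rw [← ih x, ← hG (k * m + x)]; congr 1; ring
  induction d with
  | zero => simp
  | succ d ih =>
    rw [Nat.succ_mul, sum_range_add, ih]
    have : ∑ x ∈ range m, G (d * m + x) = ∑ x ∈ range m, G x :=
      sum_congr rfl fun x _ => hG' d x
    rw [this]
    push_cast
    ring

lemma char_scale (d m : ℕ) [NeZero m] [NeZero (d * m)] (hd : 0 < d) (x : ℤ) :
    (ZMod.stdAddChar (((d * x : ℤ) : ℤ) : ZMod (d * m)) : ℂ) =
      ZMod.stdAddChar ((x : ℤ) : ZMod m) := by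
  rw [ZMod.stdAddChar_coe, ZMod.stdAddChar_coe]
  congr 1
  have hm : (m : ℂ) ≠ 0 := by exact_mod_cast NeZero.ne m
  have hd' : (d : ℂ) ≠ 0 := by exact_mod_cast hd.ne'
  push_cast
  field_simp

/-- the `L¹` norm of the Fourier transform of a progression -/
lemma l1 (n q H : ℕ) [NeZero n] (hq : 0 < q) :
    ∑ w : ZMod n, ‖∑ k ∈ range H, ZMod.stdAddChar (w * ((q * k : ℕ) : ZMod n))‖ ≤
      q * H + n * (1 + Real.log n) := by
  obtain ⟨d, m, q', hd, hn, hqq, hcop⟩ : ∃ d m q' : ℕ, 0 < d ∧ n = d * m ∧ q = d * q' ∧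
      Nat.Coprime q' m := by
    refine ⟨Nat.gcd q n, n / Nat.gcd q n, q / Nat.gcd q n, Nat.gcd_pos_of_pos_left _ hq,
      (Nat.mul_div_cancel' (Nat.gcd_dvd_right _ _)).symm,
      (Nat.mul_div_cancel' (Nat.gcd_dvd_left _ _)).symm, ?_⟩
    exact Nat.coprime_div_gcd_div_gcd (Nat.gcd_pos_of_pos_left _ hq)
  have hn0 : n ≠ 0 := NeZero.ne n
  have hm0 : m ≠ 0 := by rintro rfl; simp at hn; exact hn0 hn
  have : NeZero m := ⟨hm0⟩
  subst hn
  subst hqq
  have hterm : ∀ v k : ℕ, (ZMod.stdAddChar (((v : ℕ) : ZMod (d * m)) *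
      ((d * q' * k : ℕ) : ZMod (d * m))) : ℂ) =
      ZMod.stdAddChar (((v : ℕ) : ZMod m) * ((q' * k : ℕ) : ZMod m)) := by
    intro v k
    have h1 := char_scale d m hd ((v * (q' * k) : ℕ) : ℤ)
    have e1 : ((d * ((v * (q' * k) : ℕ) : ℤ) : ℤ) : ZMod (d * m)) =
        ((v : ℕ) : ZMod (d * m)) * ((d * q' * k : ℕ) : ZMod (d * m)) := by
      push_cast; ring
    have e2 : (((v * (q' * k) : ℕ) : ℤ) : ZMod m) =
        ((v : ℕ) : ZMod m) * ((q' * k : ℕ) : ZMod m) := by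
      push_cast; ring
    rw [e1, e2] at h1
    exact h1
  rw [sum_zmod]
  simp_rw [hterm]
  rw [sum_periodic d m (fun v => ‖∑ k ∈ range H,
    (ZMod.stdAddChar (((v : ℕ) : ZMod m) * ((q' * k : ℕ) : ZMod m)) : ℂ)‖) (by
      intro x
      have : ((m + x : ℕ) : ZMod m) = ((x : ℕ) : ZMod m) := by
        push_cast; rw [ZMod.natCast_self, zero_add]
      simp only [this])]
  have h1 : ∑ v ∈ range m, ‖∑ k ∈ range H,
      (ZMod.stdAddChar (((v : ℕ) : ZMod m) * ((q' * k : ℕ) : ZMod m)) : ℂ)‖ =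
      ∑ w : ZMod m, ‖∑ k ∈ range H,
        (ZMod.stdAddChar (w * ((q' * k : ℕ) : ZMod m)) : ℂ)‖ :=
    (sum_zmod m (fun w => ‖∑ k ∈ range H,
        (ZMod.stdAddChar (w * ((q' * k : ℕ) : ZMod m)) : ℂ)‖)).symm
  rw [h1]
  have h2 : ∑ w : ZMod m, ‖∑ k ∈ range H,
        (ZMod.stdAddChar (w * ((q' * k : ℕ) : ZMod m)) : ℂ)‖ =
      ∑ w : ZMod m, ‖∑ k ∈ range H,
        (ZMod.stdAddChar (w * ((k : ℕ) : ZMod m)) : ℂ)‖ := by
    have e := Equiv.sum_comp (Units.mulRight (ZMod.unitOfCoprime q' hcop))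
      (fun w : ZMod m => ‖∑ k ∈ range H, (ZMod.stdAddChar (w * ((k : ℕ) : ZMod m)) : ℂ)‖)
    rw [← e]
    refine sum_congr rfl fun w _ => ?_
    congr 1
    refine sum_congr rfl fun k _ => ?_
    rw [Units.mulRight_apply, ZMod.coe_unitOfCoprime]
    push_cast
    rw [mul_assoc]
  rw [h2]
  have h3 := Inc.sumgeom m H
  have hd1 : (1 : ℝ) ≤ d := by exact_mod_cast hd
  have hm1 : (1 : ℝ) ≤ m := by exact_mod_cast Nat.one_le_iff_ne_zero.2 hm0
  have hq'0 : 0 < q' := Nat.pos_of_mul_pos_left hq |> fun h => by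
    rcases Nat.eq_zero_or_pos q' with h0 | h0
    · subst h0; simp at hq
    · exact h0
  have hq1 : (1 : ℝ) ≤ q' := by exact_mod_cast hq'0
  have hlog : Real.log m ≤ Real.log ((d * m : ℕ) : ℝ) := by
    apply Real.log_le_log (by linarith)
    push_cast
    nlinarith
  have hH : (0 : ℝ) ≤ H := Nat.cast_nonneg _
  push_cast at hlog ⊢
  have h4 : (d : ℝ) * H ≤ d * q' * H := by nlinarith [mul_nonneg (by linarith : (0 : ℝ) ≤ d) hH]
  have h5 : (m : ℝ) * (1 + Real.log m) ≤ m * (1 + Real.log (d * m)) := by gcongr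
  calc (d : ℝ) * ∑ w : ZMod m, ‖∑ k ∈ range H,
        (ZMod.stdAddChar (w * ((k : ℕ) : ZMod m)) : ℂ)‖ ≤ d * (H + m * (1 + Real.log m)) := by
        gcongr
    _ ≤ _ := by nlinarith

/-- the Fourier coefficients of the progression `{a + q k : k < H}` -/
noncomputable def cf (n a q H : ℕ) (w : ZMod n) : ℂ :=
  if h : n = 0 then 0 else
    haveI : NeZero n := ⟨h⟩
    (n : ℂ)⁻¹ * ∑ k ∈ range H, ZMod.stdAddChar (-(w * ((a + q * k : ℕ) : ZMod n)))

lemma cf_eq (n a q H : ℕ) [NeZero n] (w : ZMod n) :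
    cf n a q H w = (n : ℂ)⁻¹ * ∑ k ∈ range H, ZMod.stdAddChar (-(w * ((a + q * k : ℕ) : ZMod n))) := by
  unfold cf
  rw [dif_neg (NeZero.ne n)]

lemma cf_zero (n a q H : ℕ) [NeZero n] : cf n a q H 0 = (H : ℂ) / n := by
  rw [cf_eq]
  simp
  field_simp

/-- Fourier inversion -/
lemma cf_inv (n a q H : ℕ) [NeZero n] (hq : 0 < q) (hb : ∀ k < H, a + q * k < n) (v : ℕ)
    (hv : v < n) :
    ∑ w : ZMod n, cf n a q H w * ZMod.stdAddChar (w * (v : ZMod n)) =
      if ∃ k < H, v = a + q * k then 1 else 0 := by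
  have hn : (n : ℂ) ≠ 0 := by exact_mod_cast NeZero.ne n
  simp_rw [cf_eq, mul_assoc, sum_mul]
  rw [← mul_sum, sum_comm]
  have h1 : ∀ k ∈ range H, ∑ w : ZMod n, (ZMod.stdAddChar (-(w * ((a + q * k : ℕ) : ZMod n))) : ℂ) *
      ZMod.stdAddChar (w * (v : ZMod n)) = if v = a + q * k then (n : ℂ) else 0 := by
    intro k hk
    have h2 : ∀ w : ZMod n, (ZMod.stdAddChar (-(w * ((a + q * k : ℕ) : ZMod n))) : ℂ) *
        ZMod.stdAddChar (w * (v : ZMod n)) =
        ZMod.stdAddChar (w * ((v : ZMod n) - ((a + q * k : ℕ) : ZMod n))) := by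
      intro w
      rw [← AddChar.map_add_eq_mul]
      congr 1
      ring
    simp_rw [h2]
    rw [AddChar.sum_mulShift _ (ZMod.isPrimitive_stdAddChar n), ZMod.card]
    have h3 : ((v : ZMod n) - ((a + q * k : ℕ) : ZMod n) = 0) ↔ v = a + q * k := by
      rw [sub_eq_zero, ZMod.natCast_eq_natCast_iff']
      rw [Nat.mod_eq_of_lt hv, Nat.mod_eq_of_lt (hb k (mem_range.1 hk))]
    simp only [h3]
    split_ifs <;> simp
  rw [sum_congr rfl h1]
  by_cases h : ∃ k < H, v = a + q * k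
  · obtain ⟨k, hk, hvk⟩ := h
    rw [if_pos ⟨k, hk, hvk⟩, sum_eq_single k]
    · rw [if_pos hvk, inv_mul_cancel₀ hn]
    · intro b _ hbk
      rw [if_neg]
      intro h2
      apply hbk
      have : q * b = q * k := by omega
      exact Nat.eq_of_mul_eq_mul_left hq this
    · intro h2
      exact absurd (mem_range.2 hk) h2
  · rw [if_neg h, sum_eq_zero, mul_zero]
    intro k hk
    rw [if_neg]
    intro h2
    exact h ⟨k, mem_range.1 hk, h2⟩

lemma cf_l1 (n a q H : ℕ) [NeZero n] (hq : 0 < q) (hqn : q ≤ n) (hb : ∀ k < H, a + q * k < n) :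
    ∑ w : ZMod n, ‖cf n a q H w‖ ≤ 3 + Real.log n := by
  have hn0 : 0 < n := Nat.pos_of_ne_zero (NeZero.ne n)
  have hn : (0 : ℝ) < n := by exact_mod_cast hn0
  have h1 : ∀ w : ZMod n, ‖cf n a q H w‖ =
      (n : ℝ)⁻¹ * ‖∑ k ∈ range H, ZMod.stdAddChar ((-w) * ((q * k : ℕ) : ZMod n))‖ := by
    intro w
    rw [cf_eq, norm_mul, norm_inv, Complex.norm_natCast]
    congr 1
    have h2 : ∀ k : ℕ, (ZMod.stdAddChar (-(w * ((a + q * k : ℕ) : ZMod n))) : ℂ) =
        ZMod.stdAddChar (-(w * (a : ZMod n))) * ZMod.stdAddChar ((-w) * ((q * k : ℕ) : ZMod n)) := by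
      intro k
      rw [← AddChar.map_add_eq_mul]
      congr 1
      push_cast
      ring
    simp_rw [h2]
    rw [← mul_sum, norm_mul, AddChar.norm_apply, one_mul]
  simp_rw [h1]
  rw [← mul_sum]
  have h3 : ∑ w : ZMod n, ‖∑ k ∈ range H, (ZMod.stdAddChar ((-w) * ((q * k : ℕ) : ZMod n)) : ℂ)‖ =
      ∑ w : ZMod n, ‖∑ k ∈ range H, (ZMod.stdAddChar (w * ((q * k : ℕ) : ZMod n)) : ℂ)‖ :=
    Equiv.sum_comp (Equiv.neg (ZMod n))
      (fun w => ‖∑ k ∈ range H, (ZMod.stdAddChar (w * ((q * k : ℕ) : ZMod n)) : ℂ)‖)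
  rw [h3]
  have h4 := l1 n q H hq
  have h5 : (q : ℝ) * H ≤ 2 * n := by
    rcases Nat.eq_zero_or_pos H with h0 | h0
    · subst h0; push_cast; nlinarith
    · have h6 := hb (H - 1) (by omega)
      have h7 : q * H ≤ 2 * n := by
        have : q * H = q * (H - 1) + q := by
          obtain ⟨t, rfl⟩ : ∃ t, H = t + 1 := ⟨H - 1, by omega⟩
          simp [Nat.mul_succ]
        omega
      exact_mod_cast h7
  rw [inv_mul_le_iff₀ hn]
  nlinarith

end Pool.Agent.Q130.PV
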