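import Pool.Agent.Q130.PV.Sub

/-! # Record gaps at the points of modular hyperbolas and exponential curves -/

set_option autoImplicit false

open Finset Filter

namespace Pool.Agent.Q130.PV

open Pool.Agent.W147.PS (ff ff_compare ev_pow)
open Pool.Agent.Y943.Fu
open Pool.Agent.H442R2.KF.TaskB

open scoped Classical in
theorem prep (ε : ℝ) (h0 : 0 < ε) (h1 : ε ≤ 1) : ∃ κ : ℝ, 0 < κ ∧ ∀ᶠ p : ℕ in atTop,
    ∀ (ι : Type) (s : Finset ι) (n₁ n₂ : ℕ) [NeZero n₁] [NeZero n₂] (v₁ v₂ : ι → ℕ)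
      (u₁ L₁ u₂ L₂ : ℕ), (p : ℝ) ^ (1 / 3 : ℝ) ≤ n₁ → (p : ℝ) ^ (1 / 3 : ℝ) ≤ n₂ →
      n₁ ≤ p → n₂ ≤ p →
      (∀ i ∈ s, v₁ i < n₁) → (∀ i ∈ s, v₂ i < n₂) → u₁ + L₁ ≤ n₁ → u₂ + L₂ ≤ n₂ →
      (p : ℝ) ^ (ε / 24) ≤ L₁ → (p : ℝ) ^ (ε / 24) ≤ L₂ →
      (∀ (h₁ : ZMod n₁) (h₂ : ZMod n₂), (h₁ ≠ 0 ∨ h₂ ≠ 0) →
        ‖∑ i ∈ s, (ZMod.stdAddChar (h₁ * ((v₁ i : ℕ) : ZMod n₁)) : ℂ) *
          ZMod.stdAddChar (h₂ * ((v₂ i : ℕ) : ZMod n₂))‖ ≤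
        s.card * (((L₁ : ℝ) / n₁) * ((L₂ : ℝ) / n₂)) * (p : ℝ) ^ (-(ε / 24))) →
      s.card * (((L₁ : ℝ) / n₁) * ((L₂ : ℝ) / n₂)) * (p : ℝ) ^ (-(ε / 24)) ≤
        ((s.filter (fun i => ((u₁ ≤ v₁ i ∧ v₁ i < u₁ + L₁) ∧
          ∀ q : ℕ, q.Prime → κ * ff p < |(q : ℝ) - v₁ i|) ∧
          ((u₂ ≤ v₂ i ∧ v₂ i < u₂ + L₂) ∧
          ∀ q : ℕ, q.Prime → κ * ff p < |(q : ℝ) - v₂ i|))).card : ℝ) := by
  obtain ⟨κ, hκ, hN⟩ := main2 3 (ε / 8) (by linarith) (by linarith)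
  refine ⟨κ * (1 / 3 / 32), by positivity, ?_⟩
  have t1 : Tendsto (fun p : ℕ => (p : ℝ) ^ (1 / 3 : ℝ)) atTop atTop :=
    (tendsto_rpow_atTop (by norm_num)).comp tendsto_natCast_atTop_atTop
  have e2 := tendsto_natCast_atTop_atTop (R := ℝ) |>.eventually
    (ff_compare (1 / 3) (by norm_num) (by norm_num))
  filter_upwards [t1.eventually hN, e2, eventually_ge_atTop 1] with p hp hcmp hp1
  intro ι s n₁ n₂ _ _ v₁ v₂ u₁ L₁ u₂ L₂ a1 a2 a3 a4 a5 a6 a7 a8 a9 a10 a11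
  have hp1' : (1 : ℝ) ≤ p := by exact_mod_cast hp1
  have hp0 : (0 : ℝ) ≤ p := by linarith
  have e3 : ((p : ℝ) ^ (1 / 3 : ℝ)) ^ 3 = p := by
    rw [← Real.rpow_natCast, ← Real.rpow_mul hp0]
    norm_num
  have e4 : ((p : ℝ) ^ (1 / 3 : ℝ)) ^ (ε / 8) = (p : ℝ) ^ (ε / 24) := by
    rw [← Real.rpow_mul hp0]
    congr 1
    ring
  have e5 : ((p : ℝ) ^ (1 / 3 : ℝ)) ^ (-(ε / 8)) = (p : ℝ) ^ (-(ε / 24)) := by
    rw [← Real.rpow_mul hp0]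
    congr 1
    ring
  have h := hp ι s n₁ n₂ v₁ v₂ u₁ L₁ u₂ L₂ a1 a2 (by rw [e3]; exact_mod_cast a3)
    (by rw [e3]; exact_mod_cast a4) a5 a6 a7 a8 (by rw [e4]; exact a9) (by rw [e4]; exact a10)
    (by rw [e5]; exact a11)
  rw [e5] at h
  refine h.trans ?_
  have h5 := (hcmp.2 ((p : ℝ) ^ (1 / 3 : ℝ)) le_rfl (by
    calc (p : ℝ) ^ (1 / 3 : ℝ) ≤ (p : ℝ) ^ (2 : ℝ) :=
          Real.rpow_le_rpow_of_exponent_le hp1' (by norm_num)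
      _ = (p : ℝ) ^ 2 := by norm_num)).1
  have h6 : κ * (1 / 3 / 32) * ff p ≤ κ * ff ((p : ℝ) ^ (1 / 3 : ℝ)) := by
    calc κ * (1 / 3 / 32) * ff p = κ * (1 / 3 / 32 * ff p) := by ring
      _ ≤ _ := mul_le_mul_of_nonneg_left h5 hκ.le
  have h7 : ∀ i : ι, (((u₁ ≤ v₁ i ∧ v₁ i < u₁ + L₁) ∧
          ∀ q : ℕ, q.Prime → κ * ff ((p : ℝ) ^ (1 / 3 : ℝ)) < |(q : ℝ) - v₁ i|) ∧
          ((u₂ ≤ v₂ i ∧ v₂ i < u₂ + L₂) ∧
          ∀ q : ℕ, q.Prime → κ * ff ((p : ℝ) ^ (1 / 3 : ℝ)) < |(q : ℝ) - v₂ i|)) →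
      (((u₁ ≤ v₁ i ∧ v₁ i < u₁ + L₁) ∧
          ∀ q : ℕ, q.Prime → κ * (1 / 3 / 32) * ff p < |(q : ℝ) - v₁ i|) ∧
          ((u₂ ≤ v₂ i ∧ v₂ i < u₂ + L₂) ∧
          ∀ q : ℕ, q.Prime → κ * (1 / 3 / 32) * ff p < |(q : ℝ) - v₂ i|)) := by
    rintro i ⟨⟨b1, b2⟩, b3, b4⟩
    exact ⟨⟨b1, fun q hq => lt_of_le_of_lt h6 (b2 q hq)⟩, b3,
      fun q hq => lt_of_le_of_lt h6 (b4 q hq)⟩
  exact_mod_cast card_le_card (monotone_filter_right s (fun i _ hi => h7 i hi))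

/-- sums over the modular hyperbola -/
theorem hyp_sum (p : ℕ) [Fact p.Prime] (c : ZMod p) (hc : c ≠ 0) (F : ZMod p → ZMod p → ℂ) :
    ∑ w ∈ ((range p ×ˢ range p).filter (fun w : ℕ × ℕ => ((w.1 * w.2 : ℕ) : ZMod p) = c)),
      F ((w.1 : ℕ) : ZMod p) ((w.2 : ℕ) : ZMod p) =
    ∑ u : (ZMod p)ˣ, F (u : ZMod p) (c * ((u⁻¹ : (ZMod p)ˣ) : ZMod p)) := by
  classical
  symm
  refine sum_bij' (fun u _ => ((u : ZMod p).val, (c * ((u⁻¹ : (ZMod p)ˣ) : ZMod p)).val))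
    (fun w _ => if h : ((w.1 : ℕ) : ZMod p) ≠ 0 then Units.mk0 _ h else 1) ?_ ?_ ?_ ?_ ?_
  · intro u _
    rw [mem_filter, mem_product, mem_range, mem_range]
    refine ⟨⟨ZMod.val_lt _, ZMod.val_lt _⟩, ?_⟩
    rw [Nat.cast_mul, ZMod.natCast_zmod_val, ZMod.natCast_zmod_val]
    have : (u : ZMod p) * ((u⁻¹ : (ZMod p)ˣ) : ZMod p) = 1 := Units.mul_inv u
    linear_combination c * this
  · intro w _; exact mem_univ _
  · intro u _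
    have h : (((u : ZMod p).val : ℕ) : ZMod p) ≠ 0 := by
      rw [ZMod.natCast_zmod_val]; exact u.ne_zero
    apply Units.ext
    simp only
    rw [dif_pos h, Units.val_mk0, ZMod.natCast_zmod_val]
  · intro w hw
    rw [mem_filter, mem_product, mem_range, mem_range] at hw
    obtain ⟨⟨hw1, hw2⟩, hw3⟩ := hw
    push_cast at hw3
    have h : ((w.1 : ℕ) : ZMod p) ≠ 0 := by
      intro h2
      rw [h2, zero_mul] at hw3
      exact hc hw3.symm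
    rw [dif_pos h]
    apply Prod.ext
    · show ((Units.mk0 _ h : (ZMod p)ˣ) : ZMod p).val = w.1
      rw [Units.val_mk0, ZMod.val_natCast_of_lt hw1]
    · show (c * (((Units.mk0 _ h)⁻¹ : (ZMod p)ˣ) : ZMod p)).val = w.2
      rw [← hw3, Units.val_inv_eq_inv_val, Units.val_mk0]
      have : ((w.1 : ℕ) : ZMod p) * ((w.2 : ℕ) : ZMod p) * ((w.1 : ℕ) : ZMod p)⁻¹ =
          ((w.2 : ℕ) : ZMod p) := by field_simp
      rw [this, ZMod.val_natCast_of_lt hw2]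
  · intro u _
    show _ = F (((u : ZMod p).val : ℕ) : ZMod p)
      (((c * ((u⁻¹ : (ZMod p)ˣ) : ZMod p)).val : ℕ) : ZMod p)
    rw [ZMod.natCast_zmod_val, ZMod.natCast_zmod_val]

theorem Kl_symm (p : ℕ) [Fact p.Prime] (w c : ZMod p) : Kl p w c = Kl p c w := by
  unfold Kl
  rw [← Equiv.sum_comp (Equiv.inv (ZMod p)ˣ)]
  refine Finset.sum_congr rfl fun u _ => ?_
  simp only [Equiv.inv_apply, inv_inv]
  rw [add_comm]

theorem Kl_le (p : ℕ) [Fact p.Prime] (w c : ZMod p) (h : w ≠ 0 ∨ c ≠ 0) :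
    ‖Kl p w c‖ ≤ 2 * Real.sqrt p := by
  rcases h with h | h
  · rw [Kl_symm]
    exact Kl_prime p c w (Ne.isUnit h)
  · exact Kl_prime p w c (Ne.isUnit h)

open scoped Classical in
/-- points of the modular hyperbola -/
theorem hyperbola (ε : ℝ) (h0 : 0 < ε) (h1 : ε ≤ 1) : ∃ κ : ℝ, 0 < κ ∧ ∀ᶠ p : ℕ in atTop,
    p.Prime → ∀ (c : ZMod p), c ≠ 0 → ∀ (u₁ L₁ u₂ L₂ : ℕ), u₁ + L₁ ≤ p → u₂ + L₂ ≤ p →
      (p : ℝ) ^ (3 / 2 + ε) ≤ (L₁ : ℝ) * L₂ →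
      (L₁ : ℝ) * L₂ / (p : ℝ) ^ (1 + ε) ≤
        ((((range p ×ˢ range p).filter (fun w : ℕ × ℕ => ((w.1 * w.2 : ℕ) : ZMod p) = c)).filter
          (fun w => ((u₁ ≤ w.1 ∧ w.1 < u₁ + L₁) ∧
          ∀ q : ℕ, q.Prime → κ * ff p < |(q : ℝ) - w.1|) ∧
          ((u₂ ≤ w.2 ∧ w.2 < u₂ + L₂) ∧
          ∀ q : ℕ, q.Prime → κ * ff p < |(q : ℝ) - w.2|))).card : ℝ) := by
  obtain ⟨κ, hκ, hp⟩ := prep ε h0 h1
  refine ⟨κ, hκ, ?_⟩
  have t1 : ∀ a : ℝ, 0 < a → ∀ b : ℝ, ∀ᶠ p : ℕ in atTop, b ≤ (p : ℝ) ^ a := fun a ha b =>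
    ((tendsto_rpow_atTop ha).comp tendsto_natCast_atTop_atTop).eventually_ge_atTop b
  filter_upwards [hp, eventually_ge_atTop 2, t1 (23 * ε / 24) (by linarith) 4] with p hp hp2 hpε
  intro hprime c hc u₁ L₁ u₂ L₂ b1 b2 b3
  have : Fact p.Prime := ⟨hprime⟩
  have hp2' : (2 : ℝ) ≤ p := by exact_mod_cast hp2
  have hp1 : (1 : ℝ) ≤ p := by linarith
  have hp0 : (0 : ℝ) < p := by linarith
  set s := (range p ×ˢ range p).filter (fun w : ℕ × ℕ => ((w.1 * w.2 : ℕ) : ZMod p) = c) with hs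
  have hcard : (s.card : ℝ) = p - 1 := by
    have h2 := hyp_sum p c hc (fun _ _ => 1)
    rw [← hs] at h2
    simp only [sum_const, nsmul_eq_mul, mul_one, card_univ, ZMod.card_units] at h2
    have h3 : s.card = p - 1 := by exact_mod_cast h2
    rw [h3, Nat.cast_sub (by omega)]
    simp
  have hL1p : (L₁ : ℝ) ≤ p := by exact_mod_cast (by omega : L₁ ≤ p)
  have hL2p : (L₂ : ℝ) ≤ p := by exact_mod_cast (by omega : L₂ ≤ p)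
  have hL10 : (0 : ℝ) ≤ L₁ := Nat.cast_nonneg _
  have hL20 : (0 : ℝ) ≤ L₂ := Nat.cast_nonneg _
  have hsplit : (p : ℝ) ^ (3 / 2 + ε) = (p : ℝ) ^ (1 / 2 + ε) * p := by
    rw [← Real.rpow_add_one hp0.ne']; congr 1; ring
  have hL1 : (p : ℝ) ^ (1 / 2 + ε) ≤ L₁ := by
    have : (p : ℝ) ^ (1 / 2 + ε) * p ≤ L₁ * p := by
      rw [← hsplit]
      exact b3.trans (mul_le_mul_of_nonneg_left hL2p hL10)
    exact le_of_mul_le_mul_right this hp0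
  have hL2 : (p : ℝ) ^ (1 / 2 + ε) ≤ L₂ := by
    have : (p : ℝ) ^ (1 / 2 + ε) * p ≤ L₂ * p := by
      rw [← hsplit, mul_comm (L₂ : ℝ)]
      exact b3.trans (mul_le_mul_of_nonneg_right hL1p hL20)
    exact le_of_mul_le_mul_right this hp0
  have hpe : (p : ℝ) ^ (ε / 24) ≤ (p : ℝ) ^ (1 / 2 + ε) :=
    Real.rpow_le_rpow_of_exponent_le hp1 (by linarith)
  have h3 : (p : ℝ) ^ (1 / 3 : ℝ) ≤ p := by
    calc (p : ℝ) ^ (1 / 3 : ℝ) ≤ (p : ℝ) ^ (1 : ℝ) :=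
          Real.rpow_le_rpow_of_exponent_le hp1 (by norm_num)
      _ = p := Real.rpow_one _
  have hmain : (L₁ : ℝ) * L₂ / (2 * p) * (p : ℝ) ^ (-(ε / 24)) ≤
      s.card * (((L₁ : ℝ) / p) * ((L₂ : ℝ) / p)) * (p : ℝ) ^ (-(ε / 24)) := by
    apply mul_le_mul_of_nonneg_right _ (by positivity)
    rw [hcard]
    have e1 : (L₁ : ℝ) * L₂ / (2 * p) = (p / 2) * (((L₁ : ℝ) / p) * ((L₂ : ℝ) / p)) := by
      field_simp
    rw [e1]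
    apply mul_le_mul_of_nonneg_right _ (by positivity)
    linarith
  have h := hp (ℕ × ℕ) s p p (fun w => w.1) (fun w => w.2) u₁ L₁ u₂ L₂ h3 h3 le_rfl le_rfl
    (by intro w hw; rw [hs, mem_filter, mem_product] at hw; exact mem_range.1 hw.1.1)
    (by intro w hw; rw [hs, mem_filter, mem_product] at hw; exact mem_range.1 hw.1.2) b1 b2
    (hpe.trans hL1) (hpe.trans hL2) (by
      intro g₁ g₂ hg
      have e1 := hyp_sum p c hc (fun x y => (ZMod.stdAddChar (g₁ * x) : ℂ) *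
        ZMod.stdAddChar (g₂ * y))
      rw [← hs] at e1
      rw [e1]
      have e2 : ∑ u : (ZMod p)ˣ, (ZMod.stdAddChar (g₁ * (u : ZMod p)) : ℂ) *
          ZMod.stdAddChar (g₂ * (c * ((u⁻¹ : (ZMod p)ˣ) : ZMod p))) = Kl p g₁ (g₂ * c) := by
        unfold Kl
        refine sum_congr rfl fun u _ => ?_
        rw [AddChar.map_add_eq_mul, mul_assoc]
      rw [e2]
      have e3 := Kl_le p g₁ (g₂ * c) (by
        rcases hg with hg | hg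
        · exact Or.inl hg
        · exact Or.inr (mul_ne_zero hg hc))
      refine e3.trans (le_trans ?_ hmain)
      have e4 : Real.sqrt p = (p : ℝ) ^ (1 / 2 : ℝ) := Real.sqrt_eq_rpow _
      rw [e4]
      have e5 : (p : ℝ) ^ (3 / 2 + ε) / (2 * p) * (p : ℝ) ^ (-(ε / 24)) =
          (p : ℝ) ^ (1 / 2 : ℝ) * (p : ℝ) ^ (23 * ε / 24) / 2 := by
        rw [hsplit]
        have e6 : (p : ℝ) ^ (1 / 2 + ε) * (p : ℝ) ^ (-(ε / 24)) =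
            (p : ℝ) ^ (1 / 2 : ℝ) * (p : ℝ) ^ (23 * ε / 24) := by
          rw [← Real.rpow_add hp0, ← Real.rpow_add hp0]
          congr 1
          ring
        rw [← e6]
        field_simp
      calc 2 * (p : ℝ) ^ (1 / 2 : ℝ) ≤ (p : ℝ) ^ (1 / 2 : ℝ) * (p : ℝ) ^ (23 * ε / 24) / 2 := by
            have : 0 ≤ (p : ℝ) ^ (1 / 2 : ℝ) := by positivity
            nlinarith
        _ = (p : ℝ) ^ (3 / 2 + ε) / (2 * p) * (p : ℝ) ^ (-(ε / 24)) := e5.symm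
        _ ≤ (L₁ : ℝ) * L₂ / (2 * p) * (p : ℝ) ^ (-(ε / 24)) := by gcongr)
  refine le_trans ?_ h
  refine le_trans ?_ hmain
  have e6 : (p : ℝ) ^ (1 + ε) = p * (p : ℝ) ^ (ε / 24) * (p : ℝ) ^ (23 * ε / 24) := by
    rw [mul_assoc, ← Real.rpow_add hp0, ← Real.rpow_one_add' hp0.le (by positivity)]
    congr 1
    ring
  rw [e6, Real.rpow_neg hp0.le, ← div_eq_mul_inv, div_div]
  apply div_le_div_of_nonneg_left (by positivity) (by positivity)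
  have : 0 < (p : ℝ) ^ (ε / 24) := by positivity
  nlinarith [mul_pos hp0 this]

end Pool.Agent.Q130.PV
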