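import Pool.Agent.Q130.PV.Coef

/-! # Counting members of a family in boxes and residue classes -/

set_option autoImplicit false

open Finset

namespace Pool.Agent.Q130.PV

open scoped Classical in
/-- the Fourier count -/
theorem count {ι : Type} (s : Finset ι) (r : ℕ) (n : Fin r → ℕ) [∀ j, NeZero (n j)]
    (v : ι → Fin r → ℕ) (hv : ∀ i ∈ s, ∀ j, v i j < n j) (a q H : Fin r → ℕ)
    (hq : ∀ j, 0 < q j) (hqn : ∀ j, q j ≤ n j) (hb : ∀ j, ∀ k < H j, a j + q j * k < n j) (W : ℝ)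
    (hW : ∀ h : (∀ j, ZMod (n j)), h ≠ 0 →
      ‖∑ i ∈ s, ∏ j, (ZMod.stdAddChar (h j * ((v i j : ℕ) : ZMod (n j))) : ℂ)‖ ≤ W) :
    |((s.filter (fun i => ∀ j, ∃ k < H j, v i j = a j + q j * k)).card : ℝ) -
      s.card * ∏ j, ((H j : ℝ) / n j)| ≤ (|W|) * ∏ j, (3 + Real.log (n j)) := by
  set c : ∀ j, ZMod (n j) → ℂ := fun j => cf (n j) (a j) (q j) (H j) with hc
  set S : (∀ j, ZMod (n j)) → ℂ := fun h => ∑ i ∈ s, ∏ j,
    (ZMod.stdAddChar (h j * ((v i j : ℕ) : ZMod (n j))) : ℂ) with hS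
  have h1 : ((s.filter (fun i => ∀ j, ∃ k < H j, v i j = a j + q j * k)).card : ℂ) =
      ∑ h : (∀ j, ZMod (n j)), (∏ j, c j (h j)) * S h := by
    rw [card_filter]
    push_cast
    have h2 : ∀ i ∈ s, (if ∀ j, ∃ k < H j, v i j = a j + q j * k then (1 : ℂ) else 0) =
        ∑ h : (∀ j, ZMod (n j)), (∏ j, c j (h j)) *
          ∏ j, (ZMod.stdAddChar (h j * ((v i j : ℕ) : ZMod (n j))) : ℂ) := by
      intro i hi
      have h3 : (if ∀ j, ∃ k < H j, v i j = a j + q j * k then (1 : ℂ) else 0) =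
          ∏ j, (if ∃ k < H j, v i j = a j + q j * k then (1 : ℂ) else 0) := by
        by_cases h : ∀ j, ∃ k < H j, v i j = a j + q j * k
        · rw [if_pos h, prod_congr rfl (fun j _ => if_pos (h j)), prod_const_one]
        · rw [if_neg h]
          push Not at h
          obtain ⟨j, hj⟩ := h
          symm
          apply prod_eq_zero (mem_univ j)
          rw [if_neg]
          rintro ⟨k, hk, hk2⟩
          exact hj k hk hk2
      rw [h3, prod_congr rfl (fun j _ => (cf_inv (n j) (a j) (q j) (H j) (hq j) (hb j) (v i j)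
        (hv i hi j)).symm), Finset.prod_univ_sum]
      rw [Fintype.piFinset_univ]
      refine sum_congr rfl fun h _ => ?_
      rw [prod_mul_distrib]
    rw [sum_congr rfl h2, sum_comm]
    refine sum_congr rfl fun h _ => ?_
    rw [hS, mul_sum]
  have h0 : (∏ j, c j ((0 : ∀ j, ZMod (n j)) j)) * S 0 = ((s.card * ∏ j, ((H j : ℝ) / n j) : ℝ) : ℂ) := by
    have e1 : S 0 = s.card := by
      rw [hS]
      simp
    have e2 : ∀ j, c j ((0 : ∀ j, ZMod (n j)) j) = (H j : ℂ) / n j := fun j => cf_zero _ _ _ _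
    rw [e1]
    simp_rw [e2]
    push_cast
    ring
  rw [← add_sum_erase univ _ (mem_univ (0 : ∀ j, ZMod (n j))), h0] at h1
  set E : ℂ := ∑ h ∈ univ.erase (0 : ∀ j, ZMod (n j)), (∏ j, c j (h j)) * S h with hE
  have h4 : ‖E‖ ≤ |W| * ∏ j, (3 + Real.log (n j)) := by
    calc ‖E‖ ≤ ∑ h ∈ univ.erase (0 : ∀ j, ZMod (n j)), ‖(∏ j, c j (h j)) * S h‖ := norm_sum_le _ _
      _ ≤ ∑ h ∈ univ.erase (0 : ∀ j, ZMod (n j)), (∏ j, ‖c j (h j)‖) * |W| := by
          apply sum_le_sum
          intro h hh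
          rw [norm_mul, norm_prod]
          apply mul_le_mul_of_nonneg_left _ (prod_nonneg fun j _ => norm_nonneg _)
          exact (hW h (ne_of_mem_erase hh)).trans (le_abs_self W)
      _ ≤ ∑ h : (∀ j, ZMod (n j)), (∏ j, ‖c j (h j)‖) * |W| := by
          apply sum_le_sum_of_subset_of_nonneg (erase_subset _ _)
          intro h _ _
          exact mul_nonneg (prod_nonneg fun j _ => norm_nonneg _) (abs_nonneg _)
      _ = (∏ j, ∑ w : ZMod (n j), ‖c j w‖) * |W| := by
          rw [← sum_mul, Finset.prod_univ_sum, Fintype.piFinset_univ]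
      _ ≤ (∏ j, (3 + Real.log (n j))) * |W| := by
          apply mul_le_mul_of_nonneg_right _ (abs_nonneg _)
          apply prod_le_prod
          · intro j _; exact sum_nonneg fun w _ => norm_nonneg _
          · intro j _; exact cf_l1 (n j) (a j) (q j) (H j) (hq j) (hqn j) (hb j)
      _ = _ := mul_comm _ _
  have h5 : ((((s.filter (fun i => ∀ j, ∃ k < H j, v i j = a j + q j * k)).card : ℝ) -
      s.card * ∏ j, ((H j : ℝ) / n j) : ℝ) : ℂ) = E := by
    push_cast at h1 ⊢
    rw [h1]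
    ring
  rw [← Real.norm_eq_abs, ← Complex.norm_real, h5]
  exact h4

/-- the members of an interval in a residue class form a progression -/
lemma ap (q : ℕ) (hq : 0 < q) (u L : ℕ) (ρ : ℤ) : ∃ a H : ℕ,
    (∀ x : ℕ, (u ≤ x ∧ x < u + L ∧ (q : ℤ) ∣ (x : ℤ) - ρ) ↔ ∃ k < H, x = a + q * k) ∧
    |(H : ℝ) - L / q| ≤ 1 := by
  have hq' : (0 : ℤ) < q := by exact_mod_cast hq
  obtain ⟨t, ht, htq, hdiv⟩ : ∃ t : ℕ, (t : ℤ) = (ρ - u) % q ∧ t < q ∧ (q : ℤ) ∣ ((u + t : ℕ) : ℤ) - ρ := by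
    have h0 := Int.emod_nonneg (ρ - u) hq'.ne'
    have h1 := Int.emod_lt_of_pos (ρ - u) hq'
    refine ⟨((ρ - u) % q).toNat, Int.toNat_of_nonneg h0, by omega, ?_⟩
    push_cast
    rw [Int.toNat_of_nonneg h0]
    have h2 : (q : ℤ) ∣ (ρ - u) - (ρ - u) % q := Int.dvd_self_sub_emod
    have h3 : (u : ℤ) + (ρ - u) % q - ρ = -((ρ - u) - (ρ - u) % q) := by ring
    rw [h3]
    exact (dvd_neg).2 h2
  -- the number of terms
  refine ⟨u + t, (L + q - 1 - t) / q, ?_, ?_⟩
  · intro x
    constructor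
    · rintro ⟨h1, h2, h3⟩
      have h4 : (q : ℤ) ∣ (x : ℤ) - ((u + t : ℕ) : ℤ) := by
        have := dvd_sub h3 hdiv
        have e : (x : ℤ) - ρ - (((u + t : ℕ) : ℤ) - ρ) = (x : ℤ) - ((u + t : ℕ) : ℤ) := by ring
        rwa [e] at this
      obtain ⟨k, hk⟩ := h4
      have hk0 : 0 ≤ k := by
        by_contra hneg
        push Not at hneg
        have : (q : ℤ) * k ≤ q * (-1) := mul_le_mul_of_nonneg_left (by omega) hq'.le
        push_cast at hk
        omega
      refine ⟨k.toNat, ?_, ?_⟩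
      · rw [Nat.lt_iff_add_one_le, Nat.le_div_iff_mul_le hq]
        have h5 : (q : ℤ) * k.toNat = x - (u + t : ℕ) := by rw [Int.toNat_of_nonneg hk0, hk]
        have h6 : ((k.toNat + 1) * q : ℕ) = q * k.toNat + q := by ring
        rw [h6]
        have h7 : ((q * k.toNat : ℕ) : ℤ) = x - (u + t : ℕ) := by push_cast at h5 ⊢; exact h5
        push_cast at h7
        zify
        omega
      · have h5 : (q : ℤ) * k.toNat = x - (u + t : ℕ) := by rw [Int.toNat_of_nonneg hk0, hk]
        zify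
        push_cast at h5
        linarith
    · rintro ⟨k, hk, rfl⟩
      have h1 : (k + 1) * q ≤ L + q - 1 - t := by
        rw [← Nat.le_div_iff_mul_le hq]; omega
      have h2 : (k + 1) * q = q * k + q := by ring
      rw [h2] at h1
      refine ⟨by omega, by omega, ?_⟩
      have e : ((u + t + q * k : ℕ) : ℤ) - ρ = (((u + t : ℕ) : ℤ) - ρ) + q * k := by push_cast; ring
      rw [e]
      exact dvd_add hdiv (dvd_mul_right _ _)
  · have hqR : (0 : ℝ) < q := by exact_mod_cast hq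
    set M := (L + q - 1 - t) / q with hM
    have h1 : M * q ≤ L + q - 1 - t := Nat.div_mul_le_self _ _
    have h2 : L + q - 1 - t < (M + 1) * q := by
      have := Nat.lt_mul_div_succ (L + q - 1 - t) hq
      rw [← hM] at this
      rw [mul_comm]
      exact this
    have h3 : M * q ≤ L + q := by omega
    have h4 : L ≤ (M + 1) * q := by omega
    have h3' : (M : ℝ) * q ≤ L + q := by exact_mod_cast h3
    have h4' : (L : ℝ) ≤ (M + 1) * q := by exact_mod_cast h4
    rw [abs_le]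
    constructor
    · rw [neg_le_sub_iff_le_add, div_le_iff₀ hqR]; linarith
    · rw [sub_le_iff_le_add, ← sub_le_iff_le_add', le_div_iff₀ hqR]; linarith

end Pool.Agent.Q130.PV
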