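import Pool.Agent.Q130.PV.Main

/-! # Discrete logarithms of sums in finite fields -/

set_option autoImplicit false

open Finset Filter

namespace Pool.Agent.Q130.PV

open Pool.Agent.W147.PS (ff ff_compare)
open scoped ComplexConjugate

theorem corr_char {K : Type} [Field K] [Fintype K] [DecidableEq K] (χ : MulChar K ℂ) (hχ : χ ≠ 1)
    (b b' : K) : ∑ a : K, χ (a + b) * conj (χ (a + b')) =
      (if b = b' then (Fintype.card K : ℂ) else 0) - 1 := by
  have hs : ∀ x : K, conj (χ x) = χ⁻¹ x := fun x => MulChar.star_apply' χ x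
  simp_rw [hs]
  split_ifs with h
  · subst h
    have h1 : ∑ a : K, χ (a + b) * χ⁻¹ (a + b) = ∑ a : K, (1 : MulChar K ℂ) a := by
      rw [← Equiv.sum_comp (Equiv.addRight b) (fun a : K => (1 : MulChar K ℂ) a)]
      refine sum_congr rfl fun a _ => ?_
      rw [Equiv.coe_addRight, ← mul_inv_cancel χ, MulChar.mul_apply]
    rw [h1, MulChar.sum_one_eq_card_units, Fintype.card_units, Nat.cast_sub Fintype.card_pos]
    push_cast
    ring
  · have hd : b - b' ≠ 0 := sub_ne_zero.2 h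
    set d := b - b' with hdd
    have h1 : ∑ a : K, χ (a + b) * χ⁻¹ (a + b') = ∑ y : K, χ (d * (1 - y)) * χ⁻¹ (-d * y) := by
      rw [← Equiv.sum_comp ((Equiv.mulLeft₀ (-d) (neg_ne_zero.2 hd)).trans (Equiv.subRight b'))]
      refine sum_congr rfl fun y _ => ?_
      have e1 : ((Equiv.mulLeft₀ (-d) (neg_ne_zero.2 hd)).trans (Equiv.subRight b')) y = -d * y - b' := rfl
      rw [e1]
      congr 2
      · rw [hdd]; ring
      · ring
    have h2 : ∀ y : K, χ (d * (1 - y)) * χ⁻¹ (-d * y) = χ (-1) * (χ⁻¹ y * χ (1 - y)) := by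
      intro y
      rw [map_mul, MulChar.inv_apply', MulChar.inv_apply', mul_inv, map_mul]
      have h3 : χ d * χ (-d)⁻¹ = χ (-1) := by
        rw [← map_mul]
        congr 1
        rw [inv_neg]
        field_simp
      calc χ d * χ (1 - y) * (χ (-d)⁻¹ * χ y⁻¹) = (χ d * χ (-d)⁻¹) * (χ y⁻¹ * χ (1 - y)) := by ring
        _ = _ := by rw [h3]
    rw [h1, sum_congr rfl (fun y _ => h2 y), ← mul_sum]
    have h4 : ∑ y : K, χ⁻¹ y * χ (1 - y) = jacobiSum χ⁻¹ (χ⁻¹)⁻¹ := by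
      rw [inv_inv]; rfl
    have h5 : χ⁻¹ ≠ 1 := fun h => hχ (inv_eq_one.1 h)
    rw [h4, jacobiSum_nontrivial_inv h5, MulChar.inv_apply', inv_neg, inv_one]
    have h6 : χ (-1) * χ (-1) = 1 := by
      rw [← map_mul]; simp
    rw [mul_neg, h6]
    ring

/-- bilinear sums with a nontrivial multiplicative character of a finite field -/
theorem bil_mul {K : Type} [Field K] [Fintype K] [DecidableEq K] (χ : MulChar K ℂ) (hχ : χ ≠ 1)
    (A B : Finset K) (α β : K → ℂ) (hα : ∀ a, ‖α a‖ ≤ 1) (hβ : ∀ b, ‖β b‖ ≤ 1) :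
    ‖∑ a ∈ A, ∑ b ∈ B, α a * β b * χ (a + b)‖ ≤ Real.sqrt (Fintype.card K * A.card * B.card) := by
  have h2 : ((∑ a : K, ‖∑ b ∈ B, β b * χ (a + b)‖ ^ 2 : ℝ) : ℂ) =
      ∑ b ∈ B, β b * conj (β b) * (Fintype.card K : ℂ) - (∑ b ∈ B, β b) * conj (∑ b ∈ B, β b) := by
    push_cast
    have h3 : ∀ a : K, ((‖∑ b ∈ B, β b * χ (a + b)‖ : ℝ) : ℂ) ^ 2 =
        ∑ b ∈ B, ∑ b' ∈ B, β b * conj (β b') * (χ (a + b) * conj (χ (a + b'))) := by
      intro a
      have h1 : ((‖∑ b ∈ B, β b * χ (a + b)‖ ^ 2 : ℝ) : ℂ) =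
          ∑ b ∈ B, ∑ b' ∈ B, β b * conj (β b') * (χ (a + b) * conj (χ (a + b'))) := by
        rw [← Complex.normSq_eq_norm_sq, ← Complex.mul_conj, map_sum, Finset.sum_mul_sum]
        refine sum_congr rfl fun b _ => sum_congr rfl fun b' _ => ?_
        rw [map_mul (starRingEnd ℂ)]
        ring
      rw [← h1]
      push_cast
      rfl
    rw [sum_congr rfl (fun a _ => h3 a), sum_comm]
    have h4 : ∀ b ∈ B, ∑ a : K, ∑ b' ∈ B, β b * conj (β b') * (χ (a + b) * conj (χ (a + b'))) =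
        β b * conj (β b) * (Fintype.card K : ℂ) - β b * conj (∑ b ∈ B, β b) := by
      intro b hb
      rw [sum_comm]
      have h5 : ∀ b' ∈ B, ∑ a : K, β b * conj (β b') * (χ (a + b) * conj (χ (a + b'))) =
          β b * conj (β b') * (if b = b' then (Fintype.card K : ℂ) else 0) -
            β b * conj (β b') := by
        intro b' _
        rw [← mul_sum, corr_char χ hχ]
        ring
      rw [sum_congr rfl h5, sum_sub_distrib, map_sum, ← mul_sum]
      congr 1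
      rw [sum_eq_single_of_mem b hb]
      · rw [if_pos rfl]
      · intro b' _ hne
        rw [if_neg hne.symm, mul_zero]
    rw [sum_congr rfl h4, sum_sub_distrib, ← sum_mul, ← sum_mul]
  have h5 : ∑ a : K, ‖∑ b ∈ B, β b * χ (a + b)‖ ^ 2 ≤ Fintype.card K * B.card := by
    have h6 : ∑ a : K, ‖∑ b ∈ B, β b * χ (a + b)‖ ^ 2 =
        ∑ b ∈ B, ‖β b‖ ^ 2 * (Fintype.card K : ℝ) - ‖∑ b ∈ B, β b‖ ^ 2 := by
      have : ((∑ a : K, ‖∑ b ∈ B, β b * χ (a + b)‖ ^ 2 : ℝ) : ℂ) =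
          ((∑ b ∈ B, ‖β b‖ ^ 2 * (Fintype.card K : ℝ) - ‖∑ b ∈ B, β b‖ ^ 2 : ℝ) : ℂ) := by
        rw [h2]
        push_cast
        congr 1
        · refine sum_congr rfl fun b _ => ?_
          rw [Complex.mul_conj, Complex.normSq_eq_norm_sq]
          push_cast
          rfl
        · rw [Complex.mul_conj, Complex.normSq_eq_norm_sq]
          push_cast
          rfl
      exact_mod_cast this
    rw [h6]
    have h7 : ∑ b ∈ B, ‖β b‖ ^ 2 * (Fintype.card K : ℝ) ≤ Fintype.card K * B.card := by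
      calc ∑ b ∈ B, ‖β b‖ ^ 2 * (Fintype.card K : ℝ) ≤ ∑ b ∈ B, (Fintype.card K : ℝ) := by
            refine sum_le_sum fun b _ => ?_
            have : ‖β b‖ ^ 2 ≤ 1 := pow_le_one₀ (norm_nonneg _) (hβ b)
            nlinarith [(Nat.cast_nonneg (Fintype.card K) : (0 : ℝ) ≤ _)]
        _ = Fintype.card K * B.card := by rw [sum_const, nsmul_eq_mul]; ring
    have h8 : 0 ≤ ‖∑ b ∈ B, β b‖ ^ 2 := by positivity
    linarith
  apply Real.le_sqrt_of_sq_le
  have h7 : ‖∑ a ∈ A, ∑ b ∈ B, α a * β b * χ (a + b)‖ ≤ ∑ a ∈ A, ‖∑ b ∈ B, β b * χ (a + b)‖ := by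
    refine (norm_sum_le _ _).trans (sum_le_sum fun a _ => ?_)
    have : ∑ b ∈ B, α a * β b * χ (a + b) = α a * ∑ b ∈ B, β b * χ (a + b) := by
      rw [mul_sum]
      exact sum_congr rfl fun b _ => by ring
    rw [this, norm_mul]
    exact mul_le_of_le_one_left (norm_nonneg _) (hα a)
  calc ‖∑ a ∈ A, ∑ b ∈ B, α a * β b * χ (a + b)‖ ^ 2
      ≤ (∑ a ∈ A, ‖∑ b ∈ B, β b * χ (a + b)‖) ^ 2 := pow_le_pow_left₀ (norm_nonneg _) h7 2
    _ ≤ A.card * ∑ a ∈ A, ‖∑ b ∈ B, β b * χ (a + b)‖ ^ 2 := sq_sum_le_card_mul_sum_sq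
    _ ≤ A.card * (Fintype.card K * B.card) := by
        apply mul_le_mul_of_nonneg_left _ (Nat.cast_nonneg _)
        refine le_trans ?_ h5
        exact sum_le_sum_of_subset_of_nonneg (subset_univ A) (fun _ _ _ => by positivity)
    _ = Fintype.card K * A.card * B.card := by ring

/-- the character with prescribed value at a generator -/
theorem exists_char {K : Type} [Field K] [Fintype K] [DecidableEq K] (γ : Kˣ)
    (hγ : ∀ x : Kˣ, x ∈ Subgroup.zpowers γ) (n : ℕ) [NeZero n] (hn : Fintype.card Kˣ = n)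
    (h : ZMod n) : ∃ χ : MulChar K ℂ, (h ≠ 0 → χ ≠ 1) ∧
      ∀ m : ℕ, χ ((γ : K) ^ m) = ZMod.stdAddChar (h * (m : ZMod n)) := by
  have hn0 : (ZMod.stdAddChar h : ℂ) ^ n = 1 := by
    rw [← AddChar.map_nsmul_eq_pow, nsmul_eq_mul, ZMod.natCast_self, zero_mul,
      AddChar.map_zero_eq_one]
  set ζ : ℂˣ := Units.mk0 (ZMod.stdAddChar h : ℂ) (by
    intro h0
    rw [h0, zero_pow (NeZero.ne n)] at hn0
    exact zero_ne_one hn0) with hζ
  have hmem : ζ ∈ rootsOfUnity (Fintype.card Kˣ) ℂ := by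
    rw [mem_rootsOfUnity, hn]
    ext
    rw [hζ]
    simpa using hn0
  refine ⟨MulChar.ofRootOfUnity hmem hγ, ?_, ?_⟩
  · intro hh h1
    have h2 := MulChar.ofRootOfUnity_spec hmem hγ
    rw [h1, MulChar.one_apply_coe] at h2
    have h3 : (ZMod.stdAddChar h : ℂ) = 1 := by
      rw [hζ] at h2
      simpa using h2.symm
    exact hh (ZMod.injective_stdAddChar (h3.trans (AddChar.map_zero_eq_one _).symm))
  · intro m
    rw [map_pow, MulChar.ofRootOfUnity_spec hmem hγ]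
    have h3 : (ζ : ℂ) = ZMod.stdAddChar h := by rw [hζ]; simp
    rw [h3, ← AddChar.map_nsmul_eq_pow, nsmul_eq_mul, mul_comm]

end Pool.Agent.Q130.PV
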