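import Pool.Agent.Q130.PV.Dlog

/-! # Discrete logarithms of sums in finite fields and record gaps -/

set_option autoImplicit false

open Finset Filter

namespace Pool.Agent.Q130.PV

open Pool.Agent.W147.PS (ff ff_compare)

open scoped Classical in
theorem dlog_main (ε : ℝ) (h0 : 0 < ε) (h1 : ε ≤ 1) :
    ∃ κ : ℝ, 0 < κ ∧ ∀ᶠ q : ℕ in atTop, ∀ (K : Type) [Field K] [Fintype K], Fintype.card K = q →
      ∀ γ : Kˣ, (∀ x : Kˣ, x ∈ Subgroup.zpowers γ) →
      ∀ (A B : Finset K) (f g : K → Kˣ) (u L : ℕ), u + L ≤ q - 1 →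
      (q : ℝ) ^ (3 + ε) ≤ (A.card : ℝ) * B.card * (L : ℝ) ^ 2 →
      (q : ℝ) ^ (-1 - ε) * (A.card * B.card * L) ≤
        (((A ×ˢ B).filter (fun w : K × K => ∃ n : ℕ, (u ≤ n ∧ n < u + L) ∧
          (w.1 + w.2) * f w.1 * g w.2 = (γ : K) ^ n ∧
          ∀ r : ℕ, r.Prime → κ * ff q < |(r : ℝ) - n|)).card : ℝ) := by
  obtain ⟨κ, hκ, hN⟩ := main 1 le_rfl 2 (ε / 2) (by linarith) (by linarith)
  refine ⟨κ * (1 / 2 / 32), by positivity, ?_⟩
  have t1 : Tendsto (fun p : ℕ => (p : ℝ) ^ (1 / 2 : ℝ)) atTop atTop :=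
    (tendsto_rpow_atTop (by norm_num)).comp tendsto_natCast_atTop_atTop
  have t2 : ∀ a : ℝ, 0 < a → ∀ b : ℝ, ∀ᶠ p : ℕ in atTop, b ≤ (p : ℝ) ^ a := fun a ha b =>
    ((tendsto_rpow_atTop ha).comp tendsto_natCast_atTop_atTop).eventually_ge_atTop b
  have e2 := tendsto_natCast_atTop_atTop (R := ℝ) |>.eventually
    (ff_compare (1 / 2) (by norm_num) (by norm_num))
  filter_upwards [t1.eventually hN, e2, eventually_ge_atTop 4, t2 (ε / 2) (by linarith) 4,
    t2 (3 * ε / 4) (by linarith) 2] with q hq hcmp hq4 hq5 hq6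
  intro K _ _ hK γ hγ A B f g u L huL hAB
  have hq4' : (4 : ℝ) ≤ q := by exact_mod_cast hq4
  have hq1 : (1 : ℝ) ≤ q := by linarith
  have hq0 : (0 : ℝ) < q := by linarith
  have : NeZero (q - 1) := ⟨by omega⟩
  have hcu : Fintype.card Kˣ = q - 1 := by rw [Fintype.card_units, hK]
  have hcast : ((q - 1 : ℕ) : ℝ) = q - 1 := by
    rw [Nat.cast_sub (by omega)]; push_cast; rfl
  -- discrete logarithm
  have hdl : ∀ x : K, ∃ n : ℕ, n < q - 1 ∧ (x ≠ 0 → (γ : K) ^ n = x) := by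
    intro x
    by_cases hx : x = 0
    · exact ⟨0, by omega, fun h => absurd hx h⟩
    · have h2 := hγ (Units.mk0 x hx)
      rw [← mem_powers_iff_mem_zpowers, mem_powers_iff_mem_range_orderOf, mem_image] at h2
      obtain ⟨n, hn, hn2⟩ := h2
      rw [mem_range, orderOf_eq_card_of_forall_mem_zpowers hγ, Nat.card_eq_fintype_card, hcu] at hn
      refine ⟨n, hn, fun _ => ?_⟩
      have := congrArg (fun z : Kˣ => (z : K)) hn2
      simpa using this
  choose dl hdl1 hdl2 using hdl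
  set M : ℝ := (A.card : ℝ) * B.card with hM
  have hM0 : 0 ≤ M := by positivity
  have hAq : (A.card : ℝ) ≤ q := by
    have := card_le_univ A
    rw [hK] at this
    exact_mod_cast this
  have hBq : (B.card : ℝ) ≤ q := by
    have := card_le_univ B
    rw [hK] at this
    exact_mod_cast this
  have hLq : (L : ℝ) ≤ q := by exact_mod_cast (by omega : L ≤ q)
  have hL0 : (0 : ℝ) ≤ L := Nat.cast_nonneg _
  have hB2 : (2 : ℝ) ≤ B.card := by
    have e1 : (q : ℝ) ^ (3 + ε) = (q : ℝ) ^ 3 * (q : ℝ) ^ ε := by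
      rw [Real.rpow_add hq0]; norm_num
    have e3 : (A.card : ℝ) * B.card * (L : ℝ) ^ 2 ≤ q * B.card * (q : ℝ) ^ 2 := by gcongr
    have e4 : (q : ℝ) ^ 3 * (q : ℝ) ^ ε ≤ (q : ℝ) ^ 3 * B.card := by
      rw [← e1]
      refine (hAB.trans e3).trans (le_of_eq (by ring))
    have e5 : (q : ℝ) ^ ε ≤ B.card := le_of_mul_le_mul_left e4 (by positivity)
    have e6 : (q : ℝ) ^ (3 * ε / 4) ≤ (q : ℝ) ^ ε :=
      Real.rpow_le_rpow_of_exponent_le hq1 (by linarith)
    linarith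
  set s := (A ×ˢ B).filter (fun w : K × K => w.1 + w.2 ≠ 0) with hs
  have hscard : M / 2 ≤ s.card := by
    have e1 : ((A ×ˢ B).filter (fun w : K × K => ¬ (w.1 + w.2 ≠ 0))).card ≤ A.card := by
      apply card_le_card_of_injOn (fun w : K × K => w.1)
      · intro w hw
        have hw' := (mem_filter.1 (mem_coe.1 hw)).1
        exact mem_coe.2 (mem_product.1 hw').1
      · intro w hw w' hw' hww
        have a1 := (mem_filter.1 (mem_coe.1 hw)).2
        have a2 := (mem_filter.1 (mem_coe.1 hw')).2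
        rw [not_not] at a1 a2
        have hww' : w.1 = w'.1 := hww
        refine Prod.ext hww' ?_
        have a3 : w.2 = -w.1 := by linear_combination a1
        have a4 : w'.2 = -w'.1 := by linear_combination a2
        rw [a3, a4, hww']
    have e3 := card_filter_add_card_filter_not (s := A ×ˢ B) (fun w : K × K => w.1 + w.2 ≠ 0)
    rw [card_product, ← hs] at e3
    have e4 : (s.card : ℝ) + A.card ≥ M := by
      rw [hM]
      have : A.card * B.card ≤ s.card + A.card := by omega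
      exact_mod_cast this
    have e5 : (A.card : ℝ) ≤ M / 2 := by
      rw [hM]
      nlinarith [(Nat.cast_nonneg A.card : (0 : ℝ) ≤ _)]
    linarith
  have hsx : ∀ w ∈ s, (w.1 + w.2) * f w.1 * g w.2 ≠ 0 := by
    intro w hw
    have := (mem_filter.1 hw).2
    exact mul_ne_zero (mul_ne_zero this (Units.ne_zero _)) (Units.ne_zero _)
  have hNq : ((q : ℝ) ^ (1 / 2 : ℝ)) ^ 2 = q := by
    rw [← Real.rpow_natCast, ← Real.rpow_mul hq0.le]; norm_num
  have hhalf : (q : ℝ) ^ (1 / 2 : ℝ) ≤ q - 1 := by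
    have a1 : (0 : ℝ) ≤ (q : ℝ) ^ (1 / 2 : ℝ) := by positivity
    nlinarith
  have hLlow : (q : ℝ) ^ (1 / 2 : ℝ) ≤ L := by
    have e1 : (q : ℝ) ^ (3 + ε) = (q : ℝ) ^ 2 * (q : ℝ) ^ (1 + ε) := by
      rw [← Real.rpow_natCast (q : ℝ) 2, ← Real.rpow_add hq0]
      congr 1
      push_cast
      ring
    have e3 : (A.card : ℝ) * B.card * (L : ℝ) ^ 2 ≤ q * q * (L : ℝ) ^ 2 := by gcongr
    have e4 : (q : ℝ) ^ 2 * (q : ℝ) ^ (1 + ε) ≤ (q : ℝ) ^ 2 * (L : ℝ) ^ 2 := by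
      rw [← e1]
      refine (hAB.trans e3).trans (le_of_eq (by ring))
    have e5 := le_of_mul_le_mul_left e4 (by positivity)
    have e6 : (q : ℝ) ^ (1 : ℝ) ≤ (q : ℝ) ^ (1 + ε) :=
      Real.rpow_le_rpow_of_exponent_le hq1 (by linarith)
    rw [Real.rpow_one] at e6
    refine le_of_sq_le_sq ?_ hL0
    rw [hNq]
    exact e6.trans e5
  have e7 : ((q : ℝ) ^ (1 / 2 : ℝ)) ^ (ε / 2) = (q : ℝ) ^ (ε / 4) := by
    rw [← Real.rpow_mul hq0.le]
    congr 1
    ring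
  have e8 : ((q : ℝ) ^ (1 / 2 : ℝ)) ^ (-(ε / 2)) = (q : ℝ) ^ (-(ε / 4)) := by
    rw [← Real.rpow_mul hq0.le]
    congr 1
    ring
  have key := hq (K × K) s (fun _ => q - 1)
    (fun w _ => dl ((w.1 + w.2) * f w.1 * g w.2)) (fun _ => u) (fun _ => L)
    (fun _ => by rw [hcast]; exact hhalf) (fun _ => by rw [hNq, hcast]; linarith)
    (fun x _ j => hdl1 _) (fun _ => huL)
    (fun _ => by
      rw [e7]
      refine le_trans (Real.rpow_le_rpow_of_exponent_le hq1 (by linarith)) hLlow) ?_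
  · rw [e8] at key
    simp only [Fin.prod_univ_one, Fin.forall_fin_one] at key
    have h5 := (hcmp.2 ((q : ℝ) ^ (1 / 2 : ℝ)) le_rfl (by
      calc (q : ℝ) ^ (1 / 2 : ℝ) ≤ (q : ℝ) ^ (2 : ℝ) :=
            Real.rpow_le_rpow_of_exponent_le hq1 (by norm_num)
        _ = (q : ℝ) ^ 2 := by norm_num)).1
    have h6 : (s.filter (fun w => (u ≤ dl ((w.1 + w.2) * f w.1 * g w.2) ∧
          dl ((w.1 + w.2) * f w.1 * g w.2) < u + L) ∧
          ∀ p : ℕ, p.Prime → κ * ff ((q : ℝ) ^ (1 / 2 : ℝ)) <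
            |(p : ℝ) - dl ((w.1 + w.2) * f w.1 * g w.2)|)) ⊆
        ((A ×ˢ B).filter (fun w : K × K => ∃ n : ℕ, (u ≤ n ∧ n < u + L) ∧
          (w.1 + w.2) * f w.1 * g w.2 = (γ : K) ^ n ∧
          ∀ r : ℕ, r.Prime → κ * (1 / 2 / 32) * ff q < |(r : ℝ) - n|)) := by
      intro w hw
      obtain ⟨b1, b2, b3⟩ := mem_filter.1 hw
      refine mem_filter.2 ⟨(mem_filter.1 b1).1, dl ((w.1 + w.2) * f w.1 * g w.2), b2,
        (hdl2 _ (hsx w b1)).symm, fun r hr => ?_⟩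
      refine lt_of_le_of_lt ?_ (b3 r hr)
      have : κ * (1 / 2 / 32 * ff q) ≤ κ * ff ((q : ℝ) ^ (1 / 2 : ℝ)) :=
        mul_le_mul_of_nonneg_left h5 hκ.le
      linarith
    have h7 : (q : ℝ) ^ (-1 - ε) * (A.card * B.card * L) ≤
        s.card * ((L : ℝ) / ((q - 1 : ℕ) : ℝ)) * (q : ℝ) ^ (-(ε / 4)) := by
      have c1 : (L : ℝ) / q ≤ (L : ℝ) / ((q - 1 : ℕ) : ℝ) := by
        rw [hcast]
        apply div_le_div_of_nonneg_left hL0 (by linarith) (by linarith)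
      have c2 : (q : ℝ) ^ (-1 - ε) * (A.card * B.card * L) ≤
          (M / 2) * ((L : ℝ) / q) * (q : ℝ) ^ (-(ε / 4)) := by
        have c3 : (q : ℝ) ^ (-1 - ε) = (q : ℝ)⁻¹ * (q : ℝ) ^ (-(ε / 4)) * (q : ℝ) ^ (-(3 * ε / 4)) := by
          rw [← Real.rpow_neg_one, ← Real.rpow_add hq0, ← Real.rpow_add hq0]
          congr 1
          ring
        have c4 : (q : ℝ) ^ (-(3 * ε / 4)) ≤ 1 / 2 := by
          rw [Real.rpow_neg hq0.le, ← one_div]
          exact one_div_le_one_div_of_le (by norm_num) hq6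
        rw [c3, ← hM]
        calc (q : ℝ)⁻¹ * (q : ℝ) ^ (-(ε / 4)) * (q : ℝ) ^ (-(3 * ε / 4)) * (M * L)
            ≤ (q : ℝ)⁻¹ * (q : ℝ) ^ (-(ε / 4)) * (1 / 2) * (M * L) := by gcongr
          _ = _ := by field_simp
      refine c2.trans ?_
      gcongr
    refine (h7.trans key).trans ?_
    exact_mod_cast card_le_card h6
  · intro h hh
    rw [e8]
    have hh0 : h 0 ≠ 0 := by
      intro h3
      apply hh
      funext i
      have : i = 0 := Subsingleton.elim _ _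
      rw [this, h3]
      rfl
    obtain ⟨χ, hχ1, hχ2⟩ := exists_char γ hγ (q - 1) hcu (h 0)
    have e5 : ∑ w ∈ s, ∏ j : Fin 1, (ZMod.stdAddChar (h j *
        (((dl ((w.1 + w.2) * f w.1 * g w.2) : ℕ) : ZMod (q - 1)))) : ℂ) =
        ∑ a ∈ A, ∑ b ∈ B, χ (f a) * χ (g b) * χ (a + b) := by
      have e6 : ∀ w ∈ s, ∏ j : Fin 1, (ZMod.stdAddChar (h j *
          (((dl ((w.1 + w.2) * f w.1 * g w.2) : ℕ) : ZMod (q - 1)))) : ℂ) =
          χ (f w.1) * χ (g w.2) * χ (w.1 + w.2) := by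
        intro w hw
        rw [Fin.prod_univ_one, ← hχ2, hdl2 _ (hsx w hw), map_mul, map_mul]
        ring
      rw [sum_congr rfl e6, ← sum_product', hs]
      apply sum_filter_of_ne
      intro w _ hne
      intro h0'
      apply hne
      rw [h0', MulChar.map_zero, mul_zero]
    rw [e5]
    have hn : ∀ x : K, ‖χ x‖ ≤ 1 := by
      intro x
      by_cases hx : x = 0
      · rw [hx, MulChar.map_zero, norm_zero]; norm_num
      · rw [← hdl2 x hx, hχ2, ZMod.stdAddChar_apply]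
        exact (Circle.norm_coe _).le
    refine (bil_mul χ (hχ1 hh0) A B (fun a => χ (f a)) (fun b => χ (g b))
      (fun a => hn _) (fun b => hn _)).trans ?_
    rw [hK, Fin.prod_univ_one, show (q : ℝ) * (A.card : ℝ) * B.card = q * M by rw [hM]; ring]
    apply Real.sqrt_le_iff.2
    refine ⟨by positivity, ?_⟩
    have c1 : (L : ℝ) / q ≤ (L : ℝ) / ((q - 1 : ℕ) : ℝ) := by
      rw [hcast]
      apply div_le_div_of_nonneg_left hL0 (by linarith) (by linarith)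
    have c2 : (M / 2) * ((L : ℝ) / q) * (q : ℝ) ^ (-(ε / 4)) ≤
        s.card * ((L : ℝ) / ((q - 1 : ℕ) : ℝ)) * (q : ℝ) ^ (-(ε / 4)) := by gcongr
    refine le_trans ?_ (pow_le_pow_left₀ (by positivity) c2 2)
    have c3 : ((M / 2) * ((L : ℝ) / q) * (q : ℝ) ^ (-(ε / 4))) ^ 2 =
        M * (M * (L : ℝ) ^ 2) * (1 / 4 * (q : ℝ) ^ (-2 - ε / 2)) := by
      have c4 : (q : ℝ) ^ (-2 - ε / 2) = ((q : ℝ)⁻¹) ^ 2 * ((q : ℝ) ^ (-(ε / 4))) ^ 2 := by
        rw [← Real.rpow_neg_one, ← Real.rpow_natCast _ 2,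
          ← Real.rpow_natCast _ 2, ← Real.rpow_mul hq0.le, ← Real.rpow_mul hq0.le,
          ← Real.rpow_add hq0]
        congr 1
        push_cast
        ring
      rw [c4]
      field_simp
      ring
    rw [c3]
    have c5 : (q : ℝ) ≤ (q : ℝ) ^ (3 + ε) * (1 / 4 * (q : ℝ) ^ (-2 - ε / 2)) := by
      have c6 : (q : ℝ) ^ (3 + ε) * (1 / 4 * (q : ℝ) ^ (-2 - ε / 2)) = q * ((q : ℝ) ^ (ε / 2) / 4) := by
        have : (q : ℝ) ^ (3 + ε) * (q : ℝ) ^ (-2 - ε / 2) = q * (q : ℝ) ^ (ε / 2) := by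
          rw [← Real.rpow_add hq0, ← Real.rpow_one_add' hq0.le (by linarith)]
          congr 1
          ring
        linear_combination (1 / 4) * this
      rw [c6]
      have : 1 ≤ (q : ℝ) ^ (ε / 2) / 4 := by linarith
      nlinarith
    calc (q : ℝ) * M = M * q := mul_comm _ _
      _ ≤ M * ((q : ℝ) ^ (3 + ε) * (1 / 4 * (q : ℝ) ^ (-2 - ε / 2))) := by gcongr
      _ ≤ M * ((M * (L : ℝ) ^ 2) * (1 / 4 * (q : ℝ) ^ (-2 - ε / 2))) := by gcongr
      _ = _ := by ring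

end Pool.Agent.Q130.PV
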