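import Pool.Agent.Q130.PV.Main

/-! # Arbitrary sets in finite fields -/

set_option autoImplicit false

open Finset Filter

namespace Pool.Agent.Q130.PV

open Pool.Agent.W147.PS (ff)
open scoped ComplexConjugate

/-- bilinear sums with a nontrivial additive character of a finite field -/
theorem bil_add {K : Type} [Field K] [Fintype K] [DecidableEq K] (ψ : AddChar K ℂ) (hψ : ψ ≠ 1)
    (A B : Finset K) (α β : K → ℂ) (hα : ∀ a, ‖α a‖ ≤ 1) (hβ : ∀ b, ‖β b‖ ≤ 1) :
    ‖∑ a ∈ A, ∑ b ∈ B, α a * β b * ψ (a * b)‖ ≤ Real.sqrt (Fintype.card K * A.card * B.card) := by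
  have hprim : ψ.IsPrimitive := AddChar.IsPrimitive.of_ne_one hψ
  have h1 : ∀ a : K, ((‖∑ b ∈ B, β b * ψ (a * b)‖ ^ 2 : ℝ) : ℂ) =
      ∑ b ∈ B, ∑ b' ∈ B, β b * conj (β b') * ψ (a * (b - b')) := by
    intro a
    rw [← Complex.normSq_eq_norm_sq, ← Complex.mul_conj, map_sum, Finset.sum_mul_sum]
    refine sum_congr rfl fun b _ => sum_congr rfl fun b' _ => ?_
    rw [map_mul (starRingEnd ℂ), ← AddChar.map_neg_eq_conj, mul_sub, sub_eq_add_neg,
      AddChar.map_add_eq_mul]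
    ring
  have h2 : ((∑ a : K, ‖∑ b ∈ B, β b * ψ (a * b)‖ ^ 2 : ℝ) : ℂ) =
      ∑ b ∈ B, β b * conj (β b) * (Fintype.card K : ℂ) := by
    push_cast
    have h3 : ∀ a : K, ((‖∑ b ∈ B, β b * ψ (a * b)‖ : ℝ) : ℂ) ^ 2 =
        ∑ b ∈ B, ∑ b' ∈ B, β b * conj (β b') * ψ (a * (b - b')) := by
      intro a
      rw [← h1 a]
      push_cast
      rfl
    rw [sum_congr rfl (fun a _ => h3 a), sum_comm]
    refine sum_congr rfl fun b hb => ?_
    rw [sum_comm]
    have h4 : ∀ b' : K, ∑ a : K, β b * conj (β b') * ψ (a * (b - b')) =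
        β b * conj (β b') * (if b - b' = 0 then (Fintype.card K : ℂ) else 0) := by
      intro b'
      rw [← mul_sum, AddChar.sum_mulShift (b - b') hprim]
      push_cast
      rfl
    rw [sum_congr rfl (fun b' _ => h4 b'), sum_eq_single_of_mem b hb]
    · rw [if_pos (sub_self b)]
    · intro b' _ hne
      rw [if_neg (sub_ne_zero.2 hne.symm), mul_zero]
  have h5 : ∑ a : K, ‖∑ b ∈ B, β b * ψ (a * b)‖ ^ 2 ≤ Fintype.card K * B.card := by
    have h6 : ∑ a : K, ‖∑ b ∈ B, β b * ψ (a * b)‖ ^ 2 =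
        ∑ b ∈ B, ‖β b‖ ^ 2 * (Fintype.card K : ℝ) := by
      have : ((∑ a : K, ‖∑ b ∈ B, β b * ψ (a * b)‖ ^ 2 : ℝ) : ℂ) =
          ((∑ b ∈ B, ‖β b‖ ^ 2 * (Fintype.card K : ℝ) : ℝ) : ℂ) := by
        rw [h2]
        push_cast
        refine sum_congr rfl fun b _ => ?_
        rw [Complex.mul_conj, Complex.normSq_eq_norm_sq]
        push_cast
        rfl
      exact_mod_cast this
    rw [h6]
    calc ∑ b ∈ B, ‖β b‖ ^ 2 * (Fintype.card K : ℝ) ≤ ∑ b ∈ B, (Fintype.card K : ℝ) := by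
          refine sum_le_sum fun b _ => ?_
          have : ‖β b‖ ^ 2 ≤ 1 := pow_le_one₀ (norm_nonneg _) (hβ b)
          nlinarith [(Nat.cast_nonneg (Fintype.card K) : (0 : ℝ) ≤ _)]
      _ = Fintype.card K * B.card := by rw [sum_const, nsmul_eq_mul]; ring
  apply Real.le_sqrt_of_sq_le
  have h7 : ‖∑ a ∈ A, ∑ b ∈ B, α a * β b * ψ (a * b)‖ ≤ ∑ a ∈ A, ‖∑ b ∈ B, β b * ψ (a * b)‖ := by
    refine (norm_sum_le _ _).trans (sum_le_sum fun a _ => ?_)
    have : ∑ b ∈ B, α a * β b * ψ (a * b) = α a * ∑ b ∈ B, β b * ψ (a * b) := by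
      rw [mul_sum]
      exact sum_congr rfl fun b _ => by ring
    rw [this, norm_mul]
    exact mul_le_of_le_one_left (norm_nonneg _) (hα a)
  calc ‖∑ a ∈ A, ∑ b ∈ B, α a * β b * ψ (a * b)‖ ^ 2
      ≤ (∑ a ∈ A, ‖∑ b ∈ B, β b * ψ (a * b)‖) ^ 2 := pow_le_pow_left₀ (norm_nonneg _) h7 2
    _ ≤ A.card * ∑ a ∈ A, ‖∑ b ∈ B, β b * ψ (a * b)‖ ^ 2 := sq_sum_le_card_mul_sum_sq
    _ ≤ A.card * (Fintype.card K * B.card) := by
        apply mul_le_mul_of_nonneg_left _ (Nat.cast_nonneg _)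
        refine le_trans ?_ h5
        exact sum_le_sum_of_subset_of_nonneg (subset_univ A) (fun _ _ _ => by positivity)
    _ = Fintype.card K * A.card * B.card := by ring

/-- the additive character attached to a nonzero vector of frequencies -/
noncomputable def chr {p k : ℕ} [Fact p.Prime] {K : Type} [Field K] [Algebra (ZMod p) K]
    (e : Module.Basis (Fin k) (ZMod p) K) (h : Fin k → ZMod p) : AddChar K ℂ :=
  ZMod.stdAddChar.compAddMonoidHom
    ((∑ j, h j • (e.coord j) : K →ₗ[ZMod p] ZMod p).toAddMonoidHom)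

theorem chr_apply {p k : ℕ} [Fact p.Prime] {K : Type} [Field K] [Algebra (ZMod p) K]
    (e : Module.Basis (Fin k) (ZMod p) K) (h : Fin k → ZMod p) (x : K) :
    chr e h x = ZMod.stdAddChar (∑ j, h j * e.repr x j) := by
  simp [chr, AddChar.compAddMonoidHom_apply]

theorem chr_ne_one {p k : ℕ} [Fact p.Prime] {K : Type} [Field K] [Algebra (ZMod p) K]
    (e : Module.Basis (Fin k) (ZMod p) K) (h : Fin k → ZMod p) (hh : h ≠ 0) : chr e h ≠ 1 := by
  intro h1
  apply hh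
  funext i
  by_contra hi
  rw [Pi.zero_apply] at hi
  have h2 : chr e h ((h i)⁻¹ • e i) = 1 := by rw [h1]; rfl
  rw [chr_apply] at h2
  have h3 : ∑ j, h j * e.repr ((h i)⁻¹ • e i) j = 1 := by
    rw [Finset.sum_eq_single i]
    · rw [map_smul, e.repr_self, Finsupp.smul_apply, Finsupp.single_eq_same, smul_eq_mul, mul_one]
      exact mul_inv_cancel₀ hi
    · intro j _ hj
      rw [map_smul, e.repr_self, Finsupp.smul_apply, Finsupp.single_eq_of_ne hj]
      simp
    · intro h4; exact absurd (mem_univ i) h4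
  rw [h3] at h2
  have h5 := ZMod.injective_stdAddChar (N := p) (h2.trans (AddChar.map_zero_eq_one _).symm)
  exact one_ne_zero h5

end Pool.Agent.Q130.PV
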