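import Pool.Agent.Q130.PV.Fld

/-! # Arbitrary sets in finite fields and record gaps -/

set_option autoImplicit false

open Finset Filter

namespace Pool.Agent.Q130.PV

open Pool.Agent.W147.PS (ff)

open scoped Classical in
theorem fld_main (k : ℕ) (hk : 1 ≤ k) (ε : ℝ) (h0 : 0 < ε) (h1 : ε ≤ 1) :
    ∃ κ : ℝ, 0 < κ ∧ ∀ᶠ p : ℕ in atTop, ∀ [Fact p.Prime],
      ∀ (K : Type) [Field K] [Fintype K] [Algebra (ZMod p) K]
        (e : Module.Basis (Fin k) (ZMod p) K) (A B : Finset K) (f g : K → K) (u L : Fin k → ℕ),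
      (∀ j, u j + L j ≤ p) → (∀ j, (p : ℝ) ^ ε ≤ L j) →
      (p : ℝ) ^ (3 * (k : ℝ) + ε) ≤ (A.card : ℝ) * B.card * (∏ j, (L j : ℝ)) ^ 2 →
      (p : ℝ) ^ (-(k : ℝ) - ε) * (A.card * B.card * ∏ j, (L j : ℝ)) ≤
        (((A ×ˢ B).filter (fun w : K × K => ∀ j,
          (u j ≤ (e.repr (w.1 * w.2 + f w.1 + g w.2) j).val ∧
            (e.repr (w.1 * w.2 + f w.1 + g w.2) j).val < u j + L j) ∧
          ∀ q : ℕ, q.Prime → κ * ff p < |(q : ℝ) -
            (e.repr (w.1 * w.2 + f w.1 + g w.2) j).val|)).card : ℝ) := by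
  obtain ⟨κ, hκ, hN⟩ := main k hk 1 (ε / 2) (by linarith) (by linarith)
  refine ⟨κ, hκ, ?_⟩
  filter_upwards [tendsto_natCast_atTop_atTop.eventually hN, eventually_ge_atTop 2] with p hp hp2
  intro hprime K _ _ _ e A B f g u L hu hL hAB
  have hp2' : (2 : ℝ) ≤ p := by exact_mod_cast hp2
  have hp1 : (1 : ℝ) ≤ p := by linarith
  have hp0 : (0 : ℝ) < p := by linarith
  have hcK : Fintype.card K = p ^ k := by
    have : Module.Free (ZMod p) K := Module.Free.of_basis e
    have : Module.Finite (ZMod p) K := Module.Finite.of_basis e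
    rw [Module.card_eq_pow_finrank (K := ZMod p) (V := K), ZMod.card,
      Module.finrank_eq_card_basis e, Fintype.card_fin]
  have hprod : ∏ j : Fin k, ((L j : ℝ) / p) = (∏ j, (L j : ℝ)) / (p : ℝ) ^ k := by
    rw [prod_div_distrib, prod_const, card_univ, Fintype.card_fin]
  set P : ℝ := ∏ j, (L j : ℝ) with hP
  have hP0 : 0 ≤ P := by positivity
  have hA0 : (0 : ℝ) ≤ A.card := Nat.cast_nonneg _
  have hB0 : (0 : ℝ) ≤ B.card := Nat.cast_nonneg _
  have key := hp (K × K) (A ×ˢ B) (fun _ => p)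
    (fun w j => (e.repr (w.1 * w.2 + f w.1 + g w.2) j).val) u L (fun _ => le_rfl)
    (fun _ => by rw [pow_one]) (fun x _ j => ZMod.val_lt _) hu
    (fun j => (Real.rpow_le_rpow_of_exponent_le hp1 (by linarith)).trans (hL j)) ?_
  · refine le_trans ?_ key
    rw [card_product, hprod]
    push_cast
    have e3 : (p : ℝ) ^ (-(k : ℝ) - ε) * (A.card * B.card * P) ≤
        (p : ℝ) ^ (-(k : ℝ) - ε / 2) * (A.card * B.card * P) := by
      apply mul_le_mul_of_nonneg_right _ (by positivity)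
      apply Real.rpow_le_rpow_of_exponent_le hp1
      linarith
    refine e3.trans (le_of_eq ?_)
    have e4 : (p : ℝ) ^ (-(k : ℝ) - ε / 2) = ((p : ℝ) ^ k)⁻¹ * (p : ℝ) ^ (-(ε / 2)) := by
      rw [← Real.rpow_natCast (p : ℝ) k, ← Real.rpow_neg hp0.le, ← Real.rpow_add hp0]
      congr 1
    rw [e4]
    field_simp
  · intro h hh
    have hψ := chr_ne_one e h hh
    have e5 : ∑ w ∈ A ×ˢ B, ∏ j, (ZMod.stdAddChar (h j *
        (((e.repr (w.1 * w.2 + f w.1 + g w.2) j).val : ℕ) : ZMod p)) : ℂ) =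
        ∑ a ∈ A, ∑ b ∈ B, chr e h (f a) * chr e h (g b) * chr e h (a * b) := by
      rw [sum_product]
      refine sum_congr rfl fun a _ => sum_congr rfl fun b _ => ?_
      have e6 : chr e h (f a) * chr e h (g b) * chr e h (a * b) =
          chr e h (a * b + f a + g b) := by
        rw [AddChar.map_add_eq_mul, AddChar.map_add_eq_mul]; ring
      rw [e6, chr_apply]
      simp only [ZMod.natCast_zmod_val]
      induction (univ : Finset (Fin k)) using Finset.induction_on with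
      | empty => simp
      | insert a s ha ih => rw [prod_insert ha, sum_insert ha, AddChar.map_add_eq_mul, ih]
    rw [e5]
    have hn : ∀ x : K, ‖chr e h x‖ ≤ 1 := by
      intro x
      rw [chr_apply, ZMod.stdAddChar_apply]
      exact (Circle.norm_coe _).le
    refine (bil_add (chr e h) hψ A B (fun a => chr e h (f a)) (fun b => chr e h (g b))
      (fun a => hn _) (fun b => hn _)).trans ?_
    rw [card_product, hprod, hcK]
    push_cast
    rw [show (p : ℝ) ^ k * (A.card : ℝ) * B.card = (p : ℝ) ^ k * ((A.card : ℝ) * B.card) by ring]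
    set M : ℝ := (A.card : ℝ) * B.card with hM
    have hM0 : 0 ≤ M := by positivity
    apply Real.sqrt_le_iff.2
    refine ⟨by positivity, ?_⟩
    have e7 : (M * (P / (p : ℝ) ^ k) * (p : ℝ) ^ (-(ε / 2))) ^ 2 =
        M * (M * P ^ 2) * ((p : ℝ) ^ (-(2 * (k : ℝ)) - ε)) := by
      have e8 : (p : ℝ) ^ (-(2 * (k : ℝ)) - ε) = (((p : ℝ) ^ k)⁻¹) ^ 2 * ((p : ℝ) ^ (-(ε / 2))) ^ 2 := by
        rw [← Real.rpow_natCast (p : ℝ) k, ← Real.rpow_neg hp0.le, ← Real.rpow_natCast _ 2,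
          ← Real.rpow_natCast _ 2, ← Real.rpow_mul hp0.le, ← Real.rpow_mul hp0.le,
          ← Real.rpow_add hp0]
        congr 1
        push_cast
        ring
      rw [e8]
      ring
    rw [e7]
    have e9 : (p : ℝ) ^ k = (p : ℝ) ^ (3 * (k : ℝ) + ε) * (p : ℝ) ^ (-(2 * (k : ℝ)) - ε) := by
      rw [← Real.rpow_add hp0, ← Real.rpow_natCast (p : ℝ) k]
      congr 1
      ring
    calc (p : ℝ) ^ k * M = M * (p : ℝ) ^ (3 * (k : ℝ) + ε) * (p : ℝ) ^ (-(2 * (k : ℝ)) - ε) := by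
          rw [mul_assoc, ← e9, mul_comm]
      _ ≤ M * (M * P ^ 2) * (p : ℝ) ^ (-(2 * (k : ℝ)) - ε) := by gcongr

end Pool.Agent.Q130.PV
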