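import Pool.Agent.Q130.PV.Main

/-! # The cases of one and two coordinates -/

set_option autoImplicit false

open Finset Filter

namespace Pool.Agent.Q130.PV

open Pool.Agent.W147.PS (ff ff_compare ev_pow)

open scoped Classical in
theorem main1 (A : ℕ) (ε : ℝ) (h0 : 0 < ε) (h1 : ε ≤ 1) : ∃ κ : ℝ, 0 < κ ∧ ∀ᶠ N : ℝ in atTop,
    ∀ (ι : Type) (s : Finset ι) (n : ℕ) [NeZero n] (v : ι → ℕ) (u L : ℕ), N ≤ n → (n : ℝ) ≤ N ^ A →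
      (∀ i ∈ s, v i < n) → u + L ≤ n → N ^ ε ≤ L →
      (∀ h : ZMod n, h ≠ 0 → ‖∑ i ∈ s, (ZMod.stdAddChar (h * ((v i : ℕ) : ZMod n)) : ℂ)‖ ≤
        s.card * ((L : ℝ) / n) * N ^ (-ε)) →
      s.card * ((L : ℝ) / n) * N ^ (-ε) ≤
        ((s.filter (fun i => (u ≤ v i ∧ v i < u + L) ∧
          ∀ p : ℕ, p.Prime → κ * ff N < |(p : ℝ) - v i|)).card : ℝ) := by
  obtain ⟨κ, hκ, hN⟩ := main 1 le_rfl A ε h0 h1
  refine ⟨κ, hκ, ?_⟩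
  filter_upwards [hN] with N hN
  intro ι s n _ v u L a1 a2 a3 a4 a5 a6
  have := hN ι s (fun _ => n) (fun i _ => v i) (fun _ => u) (fun _ => L) (fun _ => a1)
    (fun _ => a2) (fun i hi _ => a3 i hi) (fun _ => a4) (fun _ => a5) (by
      intro h hh
      have h2 : h 0 ≠ 0 := by
        intro h3
        apply hh
        funext j
        have : j = 0 := Subsingleton.elim _ _
        subst this
        exact h3
      have h4 := a6 (h 0) h2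
      simp only [Fin.prod_univ_one]
      exact h4)
  simp only [Fin.prod_univ_one, Fin.forall_fin_one] at this
  exact this

instance inst2 (n₁ n₂ : ℕ) [h₁ : NeZero n₁] [h₂ : NeZero n₂] : ∀ j, NeZero ((![n₁, n₂] : Fin 2 → ℕ) j) := by
  intro j
  fin_cases j
  · exact h₁
  · exact h₂

open scoped Classical in
theorem main2 (A : ℕ) (ε : ℝ) (h0 : 0 < ε) (h1 : ε ≤ 1) : ∃ κ : ℝ, 0 < κ ∧ ∀ᶠ N : ℝ in atTop,
    ∀ (ι : Type) (s : Finset ι) (n₁ n₂ : ℕ) [NeZero n₁] [NeZero n₂] (v₁ v₂ : ι → ℕ)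
      (u₁ L₁ u₂ L₂ : ℕ), N ≤ n₁ → N ≤ n₂ → (n₁ : ℝ) ≤ N ^ A → (n₂ : ℝ) ≤ N ^ A →
      (∀ i ∈ s, v₁ i < n₁) → (∀ i ∈ s, v₂ i < n₂) → u₁ + L₁ ≤ n₁ → u₂ + L₂ ≤ n₂ →
      N ^ ε ≤ L₁ → N ^ ε ≤ L₂ →
      (∀ (h₁ : ZMod n₁) (h₂ : ZMod n₂), (h₁ ≠ 0 ∨ h₂ ≠ 0) →
        ‖∑ i ∈ s, (ZMod.stdAddChar (h₁ * ((v₁ i : ℕ) : ZMod n₁)) : ℂ) *
          ZMod.stdAddChar (h₂ * ((v₂ i : ℕ) : ZMod n₂))‖ ≤
        s.card * (((L₁ : ℝ) / n₁) * ((L₂ : ℝ) / n₂)) * N ^ (-ε)) →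
      s.card * (((L₁ : ℝ) / n₁) * ((L₂ : ℝ) / n₂)) * N ^ (-ε) ≤
        ((s.filter (fun i => ((u₁ ≤ v₁ i ∧ v₁ i < u₁ + L₁) ∧
          ∀ p : ℕ, p.Prime → κ * ff N < |(p : ℝ) - v₁ i|) ∧
          ((u₂ ≤ v₂ i ∧ v₂ i < u₂ + L₂) ∧
          ∀ p : ℕ, p.Prime → κ * ff N < |(p : ℝ) - v₂ i|))).card : ℝ) := by
  obtain ⟨κ, hκ, hN⟩ := main 2 (by norm_num) A ε h0 h1
  refine ⟨κ, hκ, ?_⟩
  filter_upwards [hN] with N hN
  intro ι s n₁ n₂ _ _ v₁ v₂ u₁ L₁ u₂ L₂ a1 a1' a2 a2' a3 a3' a4 a4' a5 a5' a6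
  have := hN ι s ![n₁, n₂] (fun i => ![v₁ i, v₂ i]) ![u₁, u₂] ![L₁, L₂]
    (by rw [Fin.forall_fin_two]; exact ⟨a1, a1'⟩) (by rw [Fin.forall_fin_two]; exact ⟨a2, a2'⟩)
    (by intro i hi; rw [Fin.forall_fin_two]; exact ⟨a3 i hi, a3' i hi⟩)
    (by rw [Fin.forall_fin_two]; exact ⟨a4, a4'⟩) (by rw [Fin.forall_fin_two]; exact ⟨a5, a5'⟩) (by
      intro h hh
      have h2 : (h 0 : ZMod n₁) ≠ 0 ∨ (h 1 : ZMod n₂) ≠ 0 := by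
        by_contra h3
        push Not at h3
        apply hh
        funext j
        fin_cases j
        · exact h3.1
        · exact h3.2
      have h4 := a6 (h 0) (h 1) h2
      simp only [Fin.prod_univ_two]
      exact h4)
  simp only [Fin.prod_univ_two, Fin.forall_fin_two] at this
  exact this

end Pool.Agent.Q130.PV
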