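import Pool.Agent.Q130.PV.Count
import Pool.Agent.Y961.JR.ExpJ
import Pool.Agent.W147.PS.Scale

/-! # Record prime gaps at Fourier-uniform families of vectors -/

set_option autoImplicit false

open Finset Filter

namespace Pool.Agent.Q130.PV

open Pool.Agent.W147.PS (ff ff_compare ev_pow)
open Pool.Agent.Y961.JR (critJ no_prime ev_small)

lemma prod_near {r : ℕ} (t : Finset (Fin r)) (x : Fin r → ℝ) (δ : ℝ) (hδ : 0 ≤ δ)
    (hx : ∀ j, |x j - 1| ≤ δ) : |∏ j ∈ t, x j - 1| ≤ (1 + δ) ^ t.card - 1 := by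
  classical
  induction t using Finset.induction_on with
  | empty => simp
  | insert a t ha ih =>
    rw [prod_insert ha, card_insert_of_notMem ha]
    have h1 : x a * ∏ j ∈ t, x j - 1 = x a * (∏ j ∈ t, x j - 1) + (x a - 1) := by ring
    have h2 : |x a| ≤ 1 + δ := by
      have := hx a
      rw [abs_le] at *
      constructor <;> linarith
    have h3 : (1 : ℝ) ≤ (1 + δ) ^ t.card := one_le_pow₀ (by linarith)
    calc |x a * ∏ j ∈ t, x j - 1| ≤ |x a| * |∏ j ∈ t, x j - 1| + |x a - 1| := by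
          rw [h1, ← abs_mul]; exact abs_add_le _ _
      _ ≤ (1 + δ) * ((1 + δ) ^ t.card - 1) + δ := by
          apply add_le_add _ (hx a)
          exact mul_le_mul h2 ih (abs_nonneg _) (by linarith)
      _ = (1 + δ) ^ (t.card + 1) - 1 := by ring

lemma pow_near (k : ℕ) (δ : ℝ) (h0 : 0 ≤ δ) (h1 : δ ≤ 1) : (1 + δ) ^ k ≤ 1 + 4 ^ k * δ := by
  induction k with
  | zero => simp; exact h0
  | succ k ih =>
    have h2 : (1 : ℝ) ≤ 4 ^ k := one_le_pow₀ (by norm_num)
    have h3 : (0 : ℝ) ≤ 4 ^ k * δ := by positivity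
    calc (1 + δ) ^ (k + 1) = (1 + δ) ^ k * (1 + δ) := pow_succ _ _
      _ ≤ (1 + 4 ^ k * δ) * (1 + δ) := mul_le_mul_of_nonneg_right ih (by linarith)
      _ ≤ _ := by
        rw [pow_succ]
        nlinarith [mul_le_mul_of_nonneg_left h1 h3]

lemma ev_main (r A : ℕ) (ε θ : ℝ) (h0 : 0 < ε) (hθ2 : θ ≤ ε / 8) :
    ∀ᶠ N : ℝ in atTop,
      2 ^ (r + 1) * (2 * N ^ (-ε) * (1 + (3 + A * Real.log N) ^ r) + 8 * 4 ^ r * N ^ (θ - ε)) *
        N ^ (ε / 4) ≤ 1 := by
  have e1 : ∀ᶠ N : ℝ in atTop, 1 + (3 + A * Real.log N) ^ r ≤ 2 * N ^ (ε / 8) := by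
    rcases Nat.eq_zero_or_pos r with hr | hr
    · subst hr
      filter_upwards [eventually_ge_atTop (1 : ℝ)] with N hN
      have := Real.one_le_rpow hN (by linarith : 0 ≤ ε / 8)
      simp
      linarith
    · have hr' : (0 : ℝ) < r := by exact_mod_cast hr
      have h := (isLittleO_log_rpow_atTop (show (0 : ℝ) < ε / 8 / r by positivity)).def
        (show (0 : ℝ) < 1 / (2 * (A + 1)) by positivity)
      have h2 := (tendsto_rpow_atTop (show (0 : ℝ) < ε / 8 / r by positivity)).eventually_ge_atTop 6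
      filter_upwards [h, h2, eventually_ge_atTop (1 : ℝ)] with N hN hN6 hN1
      have hlog := Real.log_nonneg hN1
      have hp : 0 ≤ N ^ (ε / 8 / r) := Real.rpow_nonneg (by linarith) _
      rw [Real.norm_eq_abs, abs_of_nonneg hlog, Real.norm_eq_abs, abs_of_nonneg hp] at hN
      have hA : (0 : ℝ) ≤ A := Nat.cast_nonneg _
      have h3 : 3 + A * Real.log N ≤ N ^ (ε / 8 / r) := by
        have h6 : (A + 1) * Real.log N ≤ N ^ (ε / 8 / r) / 2 := by
          calc ((A : ℝ) + 1) * Real.log N ≤ (A + 1) * (1 / (2 * (A + 1)) * N ^ (ε / 8 / r)) := by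
                gcongr
            _ = N ^ (ε / 8 / r) / 2 := by field_simp
        linarith
      have h4 : (3 + A * Real.log N) ^ r ≤ N ^ (ε / 8) := by
        calc (3 + A * Real.log N) ^ r ≤ (N ^ (ε / 8 / r)) ^ r :=
              pow_le_pow_left₀ (by positivity) h3 r
          _ = N ^ (ε / 8) := by
            rw [← Real.rpow_natCast, ← Real.rpow_mul (by linarith)]
            congr 1
            field_simp
      have h5 := Real.one_le_rpow hN1 (by linarith : 0 ≤ ε / 8)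
      linarith
  have e2 := ev_pow (-(5 * ε / 8)) 0 (2 ^ (r + 1) * 4) (by linarith)
  have e3 := ev_pow (-(5 * ε / 8)) 0 (2 ^ (r + 1) * (8 * 4 ^ r) * 2) (by linarith)
  have e4 := ev_pow (-(5 * ε / 8)) 0 (2 ^ (r + 1) * 4 * 2) (by linarith)
  filter_upwards [e1, e3, e4, eventually_ge_atTop (1 : ℝ)] with N h1 h3 h4 hN1
  have hN0 : 0 < N := by linarith
  rw [Real.rpow_zero] at h3 h4
  have k1 : 2 * N ^ (-ε) * (1 + (3 + A * Real.log N) ^ r) * N ^ (ε / 4) ≤
      4 * N ^ (-(5 * ε / 8)) := by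
    calc 2 * N ^ (-ε) * (1 + (3 + A * Real.log N) ^ r) * N ^ (ε / 4) ≤
          2 * N ^ (-ε) * (2 * N ^ (ε / 8)) * N ^ (ε / 4) := by gcongr
      _ = 4 * (N ^ (-ε) * N ^ (ε / 8) * N ^ (ε / 4)) := by ring
      _ = 4 * N ^ (-(5 * ε / 8)) := by
          rw [← Real.rpow_add hN0, ← Real.rpow_add hN0]
          congr 2
          ring
  have k2 : N ^ (θ - ε) * N ^ (ε / 4) ≤ N ^ (-(5 * ε / 8)) := by
    rw [← Real.rpow_add hN0]
    apply Real.rpow_le_rpow_of_exponent_le hN1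
    linarith
  have hp : (0 : ℝ) < 2 ^ (r + 1) := by positivity
  calc 2 ^ (r + 1) * (2 * N ^ (-ε) * (1 + (3 + A * Real.log N) ^ r) + 8 * 4 ^ r * N ^ (θ - ε)) *
        N ^ (ε / 4) = 2 ^ (r + 1) * (2 * N ^ (-ε) * (1 + (3 + A * Real.log N) ^ r) * N ^ (ε / 4)) +
          2 ^ (r + 1) * (8 * 4 ^ r) * (N ^ (θ - ε) * N ^ (ε / 4)) := by ring
    _ ≤ 2 ^ (r + 1) * (4 * N ^ (-(5 * ε / 8))) + 2 ^ (r + 1) * (8 * 4 ^ r) * N ^ (-(5 * ε / 8)) := by
        gcongr
    _ ≤ 1 := by linarith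

open scoped Classical in
/-- the main theorem -/
theorem main (r : ℕ) (hr : 1 ≤ r) (A : ℕ) (ε : ℝ) (h0 : 0 < ε) (h1 : ε ≤ 1) :
    ∃ κ : ℝ, 0 < κ ∧ ∀ᶠ N : ℝ in atTop,
    ∀ (ι : Type) (s : Finset ι) (n : Fin r → ℕ) [∀ j, NeZero (n j)] (v : ι → Fin r → ℕ)
      (u L : Fin r → ℕ), (∀ j, N ≤ n j) → (∀ j, (n j : ℝ) ≤ N ^ A) → (∀ i ∈ s, ∀ j, v i j < n j) →
      (∀ j, u j + L j ≤ n j) → (∀ j, N ^ ε ≤ L j) →
      (∀ h : (∀ j, ZMod (n j)), h ≠ 0 →
        ‖∑ i ∈ s, ∏ j, (ZMod.stdAddChar (h j * ((v i j : ℕ) : ZMod (n j))) : ℂ)‖ ≤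
          s.card * (∏ j, ((L j : ℝ) / n j)) * N ^ (-ε)) →
      s.card * (∏ j, ((L j : ℝ) / n j)) * N ^ (-ε) ≤
        ((s.filter (fun i => ∀ j, (u j ≤ v i j ∧ v i j < u j + L j) ∧
          ∀ p : ℕ, p.Prime → κ * ff N < |(p : ℝ) - v i j|)).card : ℝ) := by
  obtain ⟨κ, hκ, X₁, hcr⟩ := critJ r hr
  have hr1 : (1 : ℝ) ≤ r := by exact_mod_cast hr
  set θ : ℝ := ε / (8 * r) with hθ
  have hθ0 : 0 < θ := by positivity
  have hθ8 : θ ≤ ε / 8 := by
    rw [hθ]
    apply div_le_div_of_nonneg_left h0.le (by norm_num)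
    linarith
  have hθ1 : θ ≤ 1 := by linarith
  refine ⟨κ * (θ / 32), by positivity, ?_⟩
  filter_upwards [ev_main r A ε θ h0 hθ8, ff_compare θ hθ0 hθ1,
    (tendsto_rpow_atTop hθ0).eventually_ge_atTop X₁,
    (tendsto_rpow_atTop hθ0).eventually ev_small, ev_pow θ ε 8 (by linarith),
    eventually_ge_atTop (1 : ℝ)] with N hev hcmp hX₁ hsm hNε hN1
  intro ι s n _ v u L hn hn2 hv huL hL hW
  have hN0 : 0 < N := by linarith
  set X : ℝ := N ^ θ with hX
  have hX1 : 1 ≤ X := Real.one_le_rpow hN1 hθ0.le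
  obtain ⟨hfl, hcr2⟩ := hcr X hX₁
  obtain ⟨c1, c2⟩ := hsm
  set a : ℕ := ⌈X⌉₊ with ha
  have haX : X ≤ a := Nat.le_ceil _
  have haX2 : (a : ℝ) ≤ 2 * X := by
    have := Nat.ceil_lt_add_one (by linarith : 0 ≤ X)
    rw [← ha] at this
    linarith
  -- the record scale
  have hscale : κ * (θ / 32) * ff N ≤ κ * ff X := by
    have h5 := (hcmp.2 X le_rfl (by
      calc X ≤ N ^ (2 : ℝ) := Real.rpow_le_rpow_of_exponent_le hN1 (by linarith)
        _ = N ^ 2 := by norm_num)).1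
    calc κ * (θ / 32) * ff N = κ * (θ / 32 * ff N) := by ring
      _ ≤ _ := mul_le_mul_of_nonneg_left h5 hκ.le
  set β : ℝ := ∏ j, ((L j : ℝ) / n j) with hβ
  set g := s.filter (fun i => ∀ j, (u j ≤ v i j ∧ v i j < u j + L j) ∧
          ∀ p : ℕ, p.Prime → κ * (θ / 32) * ff N < |(p : ℝ) - v i j|) with hg
  by_contra hcon
  push Not at hcon
  set T : ℝ := s.card * β with hT
  have hNe : 0 < N ^ (-ε) := Real.rpow_pos_of_pos hN0 _
  have hT0 : 0 < T := by
    have h2 : (0 : ℝ) ≤ (g.card : ℝ) := Nat.cast_nonneg _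
    by_contra h3
    push Not at h3
    nlinarith
  have hnpos : ∀ j, (0 : ℝ) < n j := fun j => lt_of_lt_of_le hN0 (hn j)
  have hLpos : ∀ j, (0 : ℝ) < L j := fun j => lt_of_lt_of_le (by positivity) (hL j)
  have h8X : 8 * X ≤ N ^ ε := hNε
  have haL : ∀ j, 4 * a ≤ L j := by
    intro j
    have h2 := hL j
    have : (4 : ℝ) * a ≤ L j := by linarith
    exact_mod_cast this
  have ha1 : 1 ≤ a := by
    have : (1 : ℝ) ≤ a := by linarith
    exact_mod_cast this
  set L' : Fin r → ℕ := fun j => L j - a with hL'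
  have hL'c : ∀ j, ((L' j : ℕ) : ℝ) = L j - a := by
    intro j
    rw [hL']
    show (((L j - a : ℕ)) : ℝ) = _
    rw [Nat.cast_sub (by have := haL j; omega)]
  have hL'half : ∀ j, (L j : ℝ) / 2 ≤ L' j := by
    intro j
    rw [hL'c]
    have h2 : (4 : ℝ) * a ≤ L j := by exact_mod_cast haL j
    linarith
  have hL'pos : ∀ j, (0 : ℝ) < L' j := fun j => lt_of_lt_of_le (by have := hLpos j; linarith) (hL'half j)
  set β' : ℝ := ∏ j, ((L' j : ℝ) / n j) with hβ'
  have hβ'0 : 0 < β' := prod_pos fun j _ => div_pos (hL'pos j) (hnpos j)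
  have hβ'β : β' ≤ β := by
    apply Finset.prod_le_prod
    · intro j _; exact (div_pos (hL'pos j) (hnpos j)).le
    · intro j _
      apply div_le_div_of_nonneg_right _ (hnpos j).le
      rw [hL'c]
      have : (0 : ℝ) ≤ a := Nat.cast_nonneg _
      linarith
  have hβ'low : β / 2 ^ r ≤ β' := by
    have h2 : β / 2 ^ r = ∏ j : Fin r, ((L j : ℝ) / n j / 2) := by
      rw [prod_div_distrib]
      simp [hβ]
    rw [h2]
    apply Finset.prod_le_prod
    · intro j _; have := div_pos (hLpos j) (hnpos j); linarith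
    · intro j _
      rw [div_div, mul_comm, ← div_div]
      exact div_le_div_of_nonneg_right (hL'half j) (hnpos j).le
  have hβ0 : 0 < β := lt_of_lt_of_le hβ'0 hβ'β
  have hs0 : (0 : ℝ) ≤ s.card := Nat.cast_nonneg _
  set δ : ℝ := 4 * N ^ (θ - ε) with hδ
  have hδ0 : 0 ≤ δ := by positivity
  have hδ1 : δ ≤ 1 := by
    have h2 : N ^ (θ - ε) = X / N ^ ε := Real.rpow_sub hN0 _ _
    rw [hδ, h2, ← mul_div_assoc, div_le_one (by positivity)]
    linarith
  set P : ℝ := (3 + A * Real.log N) ^ r with hP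
  have hlogN : 0 ≤ Real.log N := Real.log_nonneg hN1
  have hA0 : 0 ≤ A * Real.log N := by positivity
  have hP1 : 1 ≤ P := one_le_pow₀ (by linarith)
  have hPn : ∏ j, (3 + Real.log (n j)) ≤ P := by
    rw [hP]
    calc ∏ j, (3 + Real.log (n j)) ≤ ∏ _j : Fin r, (3 + A * Real.log N) := by
          apply Finset.prod_le_prod
          · intro j _
            have := Real.log_nonneg (hN1.trans (hn j))
            linarith
          · intro j _
            have h2 : Real.log (n j) ≤ Real.log (N ^ A) := Real.log_le_log (hnpos j) (hn2 j)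
            rw [Real.log_pow] at h2
            linarith
      _ = _ := by simp
  -- the count of the box and a class
  have hcount : ∀ q : ℕ, 1 ≤ q → (q : ℝ) ≤ X → ∀ ρ : Fin r → ℤ,
      |((s.filter (fun i => ∀ j, u j + a ≤ v i j ∧ v i j < u j + a + L' j ∧
        (q : ℤ) ∣ (v i j : ℤ) - ρ j)).card : ℝ) - s.card * (β' / (q : ℝ) ^ r)| ≤
        T * N ^ (-ε) * P + T * (4 ^ r * δ) := by
    intro q hq hqX ρ
    have hq0 : (0 : ℝ) < q := by exact_mod_cast hq
    choose Q H hAH hH using fun j => ap q hq (u j + a) (L' j) (ρ j)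
    have hbd : ∀ j, ∀ k < H j, Q j + q * k < n j := by
      intro j k hk
      have h2 := ((hAH j) (Q j + q * k)).2 ⟨k, hk, rfl⟩
      have h3 := huL j
      have h4 := haL j
      have h5 : L' j = L j - a := rfl
      omega
    have hqn : ∀ j, q ≤ n j := by
      intro j
      have h2 : (q : ℝ) ≤ n j := by
        have h3 : X ≤ N := by
          calc X ≤ N ^ (1 : ℝ) := Real.rpow_le_rpow_of_exponent_le hN1 hθ1
            _ = N := Real.rpow_one _
        linarith [hn j]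
      exact_mod_cast h2
    have h2 := count s r n v hv Q (fun _ => q) H (fun _ => hq) hqn hbd
      (s.card * β * N ^ (-ε)) hW
    have h3 : s.filter (fun i => ∀ j, u j + a ≤ v i j ∧ v i j < u j + a + L' j ∧
        (q : ℤ) ∣ (v i j : ℤ) - ρ j) = s.filter (fun i => ∀ j, ∃ k < H j, v i j = Q j + q * k) := by
      ext i
      simp only [mem_filter]
      refine and_congr_right fun _ => forall_congr' fun j => hAH j (v i j)
    rw [h3]
    have h4 : |s.card * ∏ j, ((H j : ℝ) / n j) - s.card * (β' / (q : ℝ) ^ r)| ≤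
        T * (4 ^ r * δ) := by
      set x : Fin r → ℝ := fun j => (H j : ℝ) * q / L' j with hx
      have h5 : ∏ j, ((H j : ℝ) / n j) = β' / (q : ℝ) ^ r * ∏ j, x j := by
        have h6 : (q : ℝ) ^ r = ∏ _j : Fin r, (q : ℝ) := by simp
        rw [hβ', h6, ← prod_div_distrib, ← prod_mul_distrib]
        refine prod_congr rfl fun j _ => ?_
        have := hL'pos j
        have := hnpos j
        rw [hx]
        field_simp
      have h6 : ∀ j, |x j - 1| ≤ δ := by
        intro j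
        have h7 : x j - 1 = ((H j : ℝ) - L' j / q) * (q / L' j) := by
          have := hL'pos j
          rw [hx]
          field_simp
        rw [h7, abs_mul]
        have h8 : |(q : ℝ) / L' j| ≤ δ := by
          rw [abs_of_nonneg (div_nonneg hq0.le (hL'pos j).le), div_le_iff₀ (hL'pos j)]
          have h9 : N ^ ε / 2 ≤ L' j := by linarith [hL'half j, hL j]
          have h10 : N ^ (θ - ε) * N ^ ε = X := by
            rw [← Real.rpow_add hN0, hX]; congr 1; ring
          have h11 : 0 ≤ N ^ (θ - ε) := by positivity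
          calc (q : ℝ) ≤ X := hqX
            _ = N ^ (θ - ε) * N ^ ε := h10.symm
            _ ≤ 4 * N ^ (θ - ε) * (N ^ ε / 2) := by nlinarith [Real.rpow_pos_of_pos hN0 ε]
            _ ≤ δ * L' j := mul_le_mul_of_nonneg_left h9 hδ0
        calc |(H j : ℝ) - L' j / q| * |(q : ℝ) / L' j| ≤ 1 * δ :=
              mul_le_mul (hH j) h8 (abs_nonneg _) (by norm_num)
          _ = δ := one_mul _
      have h7 := prod_near (univ : Finset (Fin r)) x δ hδ0 h6
      rw [card_univ, Fintype.card_fin] at h7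
      have h8 := pow_near r δ hδ0 hδ1
      have h9 : |∏ j, x j - 1| ≤ 4 ^ r * δ := by linarith
      rw [h5]
      have h10 : (s.card : ℝ) * (β' / (q : ℝ) ^ r * ∏ j, x j) - s.card * (β' / (q : ℝ) ^ r) =
          s.card * (β' / (q : ℝ) ^ r) * (∏ j, x j - 1) := by ring
      rw [h10, abs_mul]
      have h11 : |(s.card : ℝ) * (β' / (q : ℝ) ^ r)| ≤ T := by
        rw [abs_of_nonneg (by positivity), hT]
        apply mul_le_mul_of_nonneg_left _ hs0
        have h12 : (1 : ℝ) ≤ (q : ℝ) ^ r := one_le_pow₀ (by exact_mod_cast hq)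
        exact (div_le_self hβ'0.le h12).trans hβ'β
      exact mul_le_mul h11 h9 (abs_nonneg _) hT0.le
    have h5 : |(s.card : ℝ) * β * N ^ (-ε)| * ∏ j, (3 + Real.log (n j)) ≤ T * N ^ (-ε) * P := by
      rw [abs_of_nonneg (by positivity)]
      exact mul_le_mul_of_nonneg_left hPn (by positivity)
    have h6 := abs_sub_le ((s.filter (fun i => ∀ j, ∃ k < H j, v i j = Q j + q * k)).card : ℝ)
      (s.card * ∏ j, ((H j : ℝ) / n j)) (s.card * (β' / (q : ℝ) ^ r))
    linarith [h2.trans h5]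
  -- the subfamily
  set s' := (s \ g).filter (fun i => ∀ j, u j + a ≤ v i j ∧ v i j < u j + a + L' j) with hs'
  have hsub : ∀ q : ℕ, ∀ ρ : Fin r → ℤ,
      |((s'.filter (fun i => ∀ j, (q : ℤ) ∣ (v i j : ℤ) - ρ j)).card : ℝ) -
        ((s.filter (fun i => ∀ j, u j + a ≤ v i j ∧ v i j < u j + a + L' j ∧
        (q : ℤ) ∣ (v i j : ℤ) - ρ j)).card : ℝ)| ≤ g.card := by
    intro q ρ
    set A1 := s'.filter (fun i => ∀ j, (q : ℤ) ∣ (v i j : ℤ) - ρ j) with hA1
    set A2 := s.filter (fun i => ∀ j, u j + a ≤ v i j ∧ v i j < u j + a + L' j ∧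
        (q : ℤ) ∣ (v i j : ℤ) - ρ j) with hA2
    have h2 : A1 ⊆ A2 := by
      intro i hi
      rw [hA1, hs', mem_filter, mem_filter, Finset.mem_sdiff] at hi
      rw [hA2, mem_filter]
      exact ⟨hi.1.1.1, fun j => ⟨(hi.1.2 j).1, (hi.1.2 j).2, hi.2 j⟩⟩
    have h3 : A2 ⊆ A1 ∪ g := by
      intro i hi
      rw [hA2, mem_filter] at hi
      rw [mem_union]
      by_cases hig : i ∈ g
      · exact Or.inr hig
      · left
        rw [hA1, hs', mem_filter, mem_filter, Finset.mem_sdiff]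
        exact ⟨⟨⟨hi.1, hig⟩, fun j => ⟨(hi.2 j).1, (hi.2 j).2.1⟩⟩, fun j => (hi.2 j).2.2⟩
    have h4 : (A1.card : ℝ) ≤ A2.card := by exact_mod_cast card_le_card h2
    have h5 : (A2.card : ℝ) ≤ A1.card + g.card := by
      exact_mod_cast (card_le_card h3).trans (card_union_le _ _)
    rw [abs_le]
    constructor <;> linarith
  set Δ : ℝ := 2 * N ^ (-ε) * (1 + P) + 2 * (4 ^ r * δ) with hΔ
  have hΔ0 : 0 ≤ Δ := by positivity
  have hΔ1 : 2 ^ (r + 1) * Δ * N ^ (ε / 4) ≤ 1 := by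
    have : Δ = 2 * N ^ (-ε) * (1 + (3 + A * Real.log N) ^ r) + 8 * 4 ^ r * N ^ (θ - ε) := by
      rw [hΔ, hP, hδ]; ring
    rw [this]
    exact hev
  have hcard1 : (s'.card : ℝ) = ((s'.filter (fun i => ∀ j, ((1 : ℕ) : ℤ) ∣ (v i j : ℤ) -
      (0 : Fin r → ℤ) j)).card : ℝ) := by
    congr 2
    rw [filter_true_of_mem]
    intro i _ j
    simp
  have hs'low : |(s'.card : ℝ) - s.card * β'| ≤ T * (Δ / 2) := by
    have h2 := hcount 1 le_rfl (by push_cast; exact hX1) 0
    have h3 := hsub 1 0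
    rw [← hcard1] at h3
    simp only [Nat.cast_one, one_pow, div_one] at h2 h3
    have h4 := abs_sub_le (s'.card : ℝ) _ (s.card * β')
      |>.trans (add_le_add h3 h2)
    refine h4.trans ?_
    rw [hΔ]
    nlinarith
  have hpow2 : (0 : ℝ) < 2 ^ r := by positivity
  have hNe4 : 1 ≤ N ^ (ε / 4) := Real.one_le_rpow hN1 (by linarith)
  have hΔ2 : 2 ^ (r + 1) * Δ ≤ 1 := by
    have : 0 ≤ 2 ^ (r + 1) * Δ := by positivity
    nlinarith
  have hs'T : T / 2 ^ (r + 1) ≤ s'.card := by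
    have h2 := (abs_le.1 hs'low).1
    have h3 : T / 2 ^ r ≤ s.card * β' := by
      rw [hT, mul_div_assoc]
      exact mul_le_mul_of_nonneg_left hβ'low hs0
    have h4 : T * (Δ / 2) ≤ T / 2 ^ (r + 1) := by
      rw [le_div_iff₀ (by positivity)]
      nlinarith
    have h5 : T / 2 ^ r = 2 * (T / 2 ^ (r + 1)) := by
      rw [pow_succ]; field_simp
    linarith
  have hs'pos : (0 : ℝ) < s'.card := lt_of_lt_of_le (by positivity) hs'T
  have hs'ne : s'.Nonempty := by
    rw [← card_pos]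
    exact_mod_cast hs'pos
  -- apply the criterion
  obtain ⟨i, hi, hi2⟩ := hcr2 ι s' (fun i j => (v i j : ℤ)) hs'ne (by
    intro q hq hqX ρ
    have hqX' : (q : ℝ) ≤ X := hqX.trans (by
      calc X ^ (2 / 5 : ℝ) ≤ X ^ (1 : ℝ) := Real.rpow_le_rpow_of_exponent_le hX1 (by norm_num)
        _ = X := Real.rpow_one _)
    have h2 := hcount q hq hqX' ρ
    have h3 := hsub q ρ
    have hq1 : (1 : ℝ) ≤ (q : ℝ) ^ r := one_le_pow₀ (by exact_mod_cast hq)
    have h4 : |s.card * (β' / (q : ℝ) ^ r) - s'.card / (q : ℝ) ^ r| ≤ T * (Δ / 2) := by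
      have e : s.card * (β' / (q : ℝ) ^ r) - s'.card / (q : ℝ) ^ r =
          -((s'.card : ℝ) - s.card * β') / (q : ℝ) ^ r := by ring
      rw [e, abs_div, abs_neg, abs_of_pos (lt_of_lt_of_le one_pos hq1)]
      exact (div_le_self (abs_nonneg _) hq1).trans hs'low
    have h5 : |((s'.filter (fun i => ∀ j, (q : ℤ) ∣ (v i j : ℤ) - ρ j)).card : ℝ) -
        s'.card / (q : ℝ) ^ r| ≤ T * Δ := by
      have h6 := abs_sub_le ((s'.filter (fun i => ∀ j, (q : ℤ) ∣ (v i j : ℤ) - ρ j)).card : ℝ)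
        ((s.filter (fun i => ∀ j, u j + a ≤ v i j ∧ v i j < u j + a + L' j ∧
        (q : ℤ) ∣ (v i j : ℤ) - ρ j)).card : ℝ) (s.card * (β' / (q : ℝ) ^ r))
      have h7 := abs_sub_le ((s'.filter (fun i => ∀ j, (q : ℤ) ∣ (v i j : ℤ) - ρ j)).card : ℝ)
        (s.card * (β' / (q : ℝ) ^ r)) (s'.card / (q : ℝ) ^ r)
      have h8 : (g.card : ℝ) ≤ T * N ^ (-ε) := hcon.le
      have h9 : T * Δ = T * N ^ (-ε) + (T * N ^ (-ε) * P + T * (4 ^ r * δ)) + T * (Δ / 2) := by
        rw [hΔ]; ring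
      rw [h9]
      linarith
    refine h5.trans ?_
    have h6 : X ^ (-(2 * (r : ℝ))) = N ^ (-(ε / 4)) := by
      rw [hX, ← Real.rpow_mul hN0.le]
      congr 1
      rw [hθ]
      field_simp
      ring
    rw [h6, Real.rpow_neg hN0.le]
    have h7 : 0 < N ^ (ε / 4) := by linarith
    rw [← div_eq_mul_inv, le_div_iff₀ h7]
    have h8 : T * Δ * N ^ (ε / 4) ≤ T / 2 ^ (r + 1) := by
      rw [le_div_iff₀ (by positivity)]
      calc T * Δ * N ^ (ε / 4) * 2 ^ (r + 1) = T * (2 ^ (r + 1) * Δ * N ^ (ε / 4)) := by ring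
        _ ≤ T * 1 := mul_le_mul_of_nonneg_left hΔ1 hT0.le
        _ = T := mul_one _
    exact h8.trans hs'T)
  -- the member is good
  rw [hs', mem_filter, Finset.mem_sdiff] at hi
  apply hi.1.2
  rw [hg, mem_filter]
  refine ⟨hi.1.1, fun j => ⟨⟨by have := (hi.2 j).1; omega, ?_⟩, ?_⟩⟩
  · have h2 := (hi.2 j).2
    have h3 := haL j
    have h4 : L' j = L j - a := rfl
    omega
  · intro p hp
    refine lt_of_le_of_lt hscale ?_
    have h2 : X ≤ ((v i j : ℕ) : ℝ) := by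
      have h3 := (hi.2 j).1
      have h4 : (a : ℝ) ≤ ((v i j : ℕ) : ℝ) := by exact_mod_cast (by omega : a ≤ v i j)
      linarith
    refine no_prime κ X hfl c1 c2 ((v i j : ℕ) : ℝ) h2 (fun m hm => hi2 j m ?_) p hp
    rw [Int.floor_natCast] at hm
    exact hm

end Pool.Agent.Q130.PV
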