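import Pool.Agent.Q130.PV.Main
import Pool.Agent.Q130.Wl

/-! # Polynomial maps modulo a prime -/

set_option autoImplicit false

open Finset Filter

namespace Pool.Agent.Q130.PV

open Pool.Agent.W147.PS (ff)

open scoped Classical in
theorem poly_main (r m D : ℕ) (hr : 1 ≤ r) (hD : 1 ≤ D) (ε : ℝ) (h0 : 0 < ε) (h1 : ε ≤ 1) :
    ∃ κ : ℝ, 0 < κ ∧ ∀ᶠ p : ℕ in atTop, ∀ [Fact p.Prime],
      ∀ F : Fin r → MvPolynomial (Fin m) (ZMod p), (∀ j, (F j).totalDegree ≤ D) →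
      (∀ (c : Fin r → ZMod p) (a : ZMod p),
        ∑ j, MvPolynomial.C (c j) * F j = MvPolynomial.C a → c = 0) →
      ∀ u L : Fin r → ℕ, (∀ j, u j + L j ≤ p) →
      (p : ℝ) ^ ((r : ℝ) - (1 / 2 : ℝ) ^ D + ε) ≤ ∏ j, (L j : ℝ) →
      (p : ℝ) ^ ((m : ℝ) - r - ε) * ∏ j, (L j : ℝ) ≤
        ((univ.filter (fun x : Fin m → ZMod p => ∀ j,
          (u j ≤ (MvPolynomial.eval x (F j)).val ∧ (MvPolynomial.eval x (F j)).val < u j + L j) ∧
          ∀ q : ℕ, q.Prime → κ * ff p < |(q : ℝ) - (MvPolynomial.eval x (F j)).val|)).card : ℝ) := by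
  obtain ⟨κ, hκ, hN⟩ := main r hr 1 (ε / 2) (by linarith) (by linarith)
  refine ⟨κ, hκ, ?_⟩
  have t1 : ∀ a : ℝ, 0 < a → ∀ b : ℝ, ∀ᶠ p : ℕ in atTop, b ≤ (p : ℝ) ^ a := fun a ha b =>
    ((tendsto_rpow_atTop ha).comp tendsto_natCast_atTop_atTop).eventually_ge_atTop b
  filter_upwards [tendsto_natCast_atTop_atTop.eventually hN, eventually_ge_atTop 2,
    eventually_gt_atTop D, t1 (ε / 2) (by linarith) ((D : ℝ) + 2)] with p hp hp2 hpD hpε
  intro hprime F hF hlin u L hu hL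
  have hp2' : (2 : ℝ) ≤ p := by exact_mod_cast hp2
  have hp1 : (1 : ℝ) ≤ p := by linarith
  have hp0 : (0 : ℝ) < p := by linarith
  have hLp : ∀ j, (L j : ℝ) ≤ p := fun j => by
    exact_mod_cast (by have := hu j; omega : L j ≤ p)
  have hcard : ((univ : Finset (Fin m → ZMod p)).card : ℝ) = (p : ℝ) ^ m := by
    rw [card_univ, Fintype.card_fun, ZMod.card, Fintype.card_fin]
    push_cast
    ring
  have hprod : ∏ j : Fin r, ((L j : ℝ) / p) = (∏ j, (L j : ℝ)) / (p : ℝ) ^ r := by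
    rw [prod_div_distrib, prod_const, card_univ, Fintype.card_fin]
  have hdens : (p : ℝ) ^ (-(1 / 2 : ℝ) ^ D + ε) ≤ ∏ j : Fin r, ((L j : ℝ) / p) := by
    rw [hprod, le_div_iff₀ (by positivity), ← Real.rpow_natCast (p : ℝ) r, ← Real.rpow_add hp0]
    refine le_trans (le_of_eq ?_) hL
    congr 1
    ring
  have hLlow : ∀ j, (p : ℝ) ^ (ε / 2) ≤ L j := by
    intro j
    have e1 : ∏ i : Fin r, ((L i : ℝ) / p) ≤ (L j : ℝ) / p := by
      rw [← mul_prod_erase univ (fun i : Fin r => (L i : ℝ) / p) (mem_univ j)]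
      refine mul_le_of_le_one_right (by positivity) ?_
      refine prod_le_one (fun i _ => by positivity) (fun i _ => ?_)
      rw [div_le_one hp0]
      exact hLp i
    have e2 := hdens.trans e1
    rw [le_div_iff₀ hp0] at e2
    refine le_trans ?_ e2
    rw [← Real.rpow_add_one hp0.ne']
    apply Real.rpow_le_rpow_of_exponent_le hp1
    have : (1 / 2 : ℝ) ^ D ≤ 1 := pow_le_one₀ (by norm_num) (by norm_num)
    linarith
  have key := hp (Fin m → ZMod p) univ (fun _ => p)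
    (fun x j => (MvPolynomial.eval x (F j)).val) u L (fun _ => le_rfl)
    (fun _ => by rw [pow_one]) (fun x _ j => ZMod.val_lt _) hu hLlow ?_
  · refine le_trans ?_ key
    rw [hcard, hprod]
    have e3 : (p : ℝ) ^ ((m : ℝ) - r - ε) * ∏ j, (L j : ℝ) ≤
        (p : ℝ) ^ ((m : ℝ) - r - ε / 2) * ∏ j, (L j : ℝ) := by
      apply mul_le_mul_of_nonneg_right _ (by positivity)
      apply Real.rpow_le_rpow_of_exponent_le hp1
      linarith
    refine e3.trans (le_of_eq ?_)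
    have e4 : (p : ℝ) ^ ((m : ℝ) - r - ε / 2) = (p : ℝ) ^ m * ((p : ℝ) ^ r)⁻¹ * (p : ℝ) ^ (-(ε / 2)) := by
      rw [← Real.rpow_natCast (p : ℝ) m, ← Real.rpow_natCast (p : ℝ) r, ← Real.rpow_neg hp0.le,
        ← Real.rpow_add hp0, ← Real.rpow_add hp0]
      congr 1
    rw [e4]
    field_simp
  · intro h hh
    have hne : (0 : Fin r → ZMod p) ≠ h := fun e => hh e.symm
    set Q : MvPolynomial (Fin m) (ZMod p) := ∑ j, MvPolynomial.C (h j) * F j with hQ
    have hQd : Q.totalDegree ≤ D := by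
      rw [hQ]
      refine (MvPolynomial.totalDegree_finset_sum _ _).trans ?_
      refine Finset.sup_le fun j _ => ?_
      refine (MvPolynomial.totalDegree_mul _ _).trans ?_
      rw [MvPolynomial.totalDegree_C, zero_add]
      exact hF j
    have hQc : ∀ c, Q ≠ MvPolynomial.C c := fun c hc => hh (hlin h c hc)
    have hW := Pool.Agent.Q130.Wl.weyl_several D hD hpD m Q hQd hQc
    have e5 : ∑ x : Fin m → ZMod p, ∏ j, (ZMod.stdAddChar (h j *
        (((MvPolynomial.eval x (F j)).val : ℕ) : ZMod p)) : ℂ) =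
        ∑ x : Fin m → ZMod p, (ZMod.stdAddChar (MvPolynomial.eval x Q) : ℂ) := by
      refine sum_congr rfl fun x _ => ?_
      rw [hQ, map_sum]
      simp only [map_mul, MvPolynomial.eval_C, ZMod.natCast_zmod_val]
      induction (univ : Finset (Fin r)) using Finset.induction_on with
      | empty => simp
      | insert a s ha ih => rw [prod_insert ha, sum_insert ha, AddChar.map_add_eq_mul, ih]
    rw [e5]
    refine hW.trans ?_
    rw [hcard]
    calc ((D : ℝ) + 2) * (p : ℝ) ^ m * (p : ℝ) ^ (-(1 / 2 : ℝ) ^ D)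
        ≤ (p : ℝ) ^ (ε / 2) * (p : ℝ) ^ m * (p : ℝ) ^ (-(1 / 2 : ℝ) ^ D) := by gcongr
      _ = (p : ℝ) ^ m * (p : ℝ) ^ (-(1 / 2 : ℝ) ^ D + ε) * (p : ℝ) ^ (-(ε / 2)) := by
          rw [mul_assoc ((p : ℝ) ^ m), ← Real.rpow_add hp0, mul_comm ((p : ℝ) ^ (ε / 2)), mul_assoc,
            ← Real.rpow_add hp0]
          congr 2
          ring
      _ ≤ (p : ℝ) ^ m * (∏ j : Fin r, ((L j : ℝ) / p)) * (p : ℝ) ^ (-(ε / 2)) := by gcongr

end Pool.Agent.Q130.PV
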