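import Pool.Agent.Q130.PV.Cor

/-! # Record gaps at exponents and powers modulo a prime -/

set_option autoImplicit false

open Finset Filter

namespace Pool.Agent.Q130.PV

open Pool.Agent.W147.PS (ff ff_compare ev_pow)
open Pool.Agent.Y943.Fu

open scoped Classical in
/-- exponents and powers -/
theorem powers (ε : ℝ) (h0 : 0 < ε) (h1 : ε ≤ 1 / 3) : ∃ κ : ℝ, 0 < κ ∧ ∀ᶠ p : ℕ in atTop,
    p.Prime → ∀ (g b : ZMod p), b ≠ 0 → ∀ (u₁ L₁ u₂ L₂ : ℕ), u₁ + L₁ ≤ orderOf g → u₂ + L₂ ≤ p →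
      ((p : ℝ) ^ (3 / 2 + ε) ≤ (L₁ : ℝ) * L₂ ∨ ((p : ℝ) ^ (3 / 7 + ε) ≤ orderOf g ∧
        orderOf g * (p : ℝ) ^ (-(ε / 4)) ≤ L₁ ∧ (p : ℝ) ^ (1 - ε / 4) ≤ L₂)) →
      (L₁ : ℝ) * L₂ / (p : ℝ) ^ (1 + ε) ≤
        (((range (orderOf g)).filter
          (fun x => ((u₁ ≤ x ∧ x < u₁ + L₁) ∧
          ∀ q : ℕ, q.Prime → κ * ff p < |(q : ℝ) - x|) ∧
          ((u₂ ≤ (b * g ^ x).val ∧ (b * g ^ x).val < u₂ + L₂) ∧
          ∀ q : ℕ, q.Prime → κ * ff p < |(q : ℝ) - (b * g ^ x).val|))).card : ℝ) := by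
  obtain ⟨κ, hκ, hp⟩ := prep ε h0 (by linarith)
  refine ⟨κ, hκ, ?_⟩
  have t1 : ∀ a : ℝ, 0 < a → ∀ b : ℝ, ∀ᶠ p : ℕ in atTop, b ≤ (p : ℝ) ^ a := fun a ha b =>
    ((tendsto_rpow_atTop ha).comp tendsto_natCast_atTop_atTop).eventually_ge_atTop b
  filter_upwards [hp, eventually_ge_atTop 2, t1 (ε / 6) (by linarith) 8] with p hp hp2 hpε
  intro hprime g b hb u₁ L₁ u₂ L₂ b1 b2 b3
  have : Fact p.Prime := ⟨hprime⟩
  have hp2' : (2 : ℝ) ≤ p := by exact_mod_cast hp2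
  have hp1 : (1 : ℝ) ≤ p := by linarith
  have hp0 : (0 : ℝ) < p := by linarith
  have hL1t : (L₁ : ℝ) ≤ orderOf g := by exact_mod_cast (by omega : L₁ ≤ orderOf g)
  have hL2p : (L₂ : ℝ) ≤ p := by exact_mod_cast (by omega : L₂ ≤ p)
  have hL10 : (0 : ℝ) ≤ L₁ := Nat.cast_nonneg _
  have hL20 : (0 : ℝ) ≤ L₂ := Nat.cast_nonneg _
  have htp' : orderOf g ≤ p := by
    have := card_le_univ (HH g)
    rw [card_HH, ZMod.card] at this
    exact this
  have htp : ((orderOf g : ℕ) : ℝ) ≤ p := by exact_mod_cast htp'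
  -- sizes
  have hsz : (p : ℝ) ^ (1 / 3 + ε / 2) ≤ L₁ ∧ (p : ℝ) ^ (1 / 3 + ε / 2) ≤ L₂ := by
    rcases b3 with b3 | ⟨b3, b4, b5⟩
    · have hsplit : (p : ℝ) ^ (3 / 2 + ε) = (p : ℝ) ^ (1 / 2 + ε) * p := by
        rw [← Real.rpow_add_one hp0.ne']; congr 1; ring
      have hle : (p : ℝ) ^ (1 / 3 + ε / 2) ≤ (p : ℝ) ^ (1 / 2 + ε) :=
        Real.rpow_le_rpow_of_exponent_le hp1 (by linarith)
      constructor
      · have : (p : ℝ) ^ (1 / 2 + ε) * p ≤ L₁ * p := by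
          rw [← hsplit]
          exact b3.trans (mul_le_mul_of_nonneg_left hL2p hL10)
        exact hle.trans (le_of_mul_le_mul_right this hp0)
      · have : (p : ℝ) ^ (1 / 2 + ε) * p ≤ L₂ * p := by
          rw [← hsplit, mul_comm (L₂ : ℝ)]
          exact b3.trans (mul_le_mul_of_nonneg_right (hL1t.trans htp) hL20)
        exact hle.trans (le_of_mul_le_mul_right this hp0)
    · constructor
      · refine le_trans ?_ b4
        calc (p : ℝ) ^ (1 / 3 + ε / 2) ≤ (p : ℝ) ^ (3 / 7 + ε + -(ε / 4)) :=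
              Real.rpow_le_rpow_of_exponent_le hp1 (by linarith)
          _ = (p : ℝ) ^ (3 / 7 + ε) * (p : ℝ) ^ (-(ε / 4)) := Real.rpow_add hp0 _ _
          _ ≤ _ := by gcongr
      · refine le_trans ?_ b5
        exact Real.rpow_le_rpow_of_exponent_le hp1 (by linarith)
  obtain ⟨hL1, hL2⟩ := hsz
  have hL1' : (p : ℝ) ^ (1 / 3 : ℝ) ≤ L₁ :=
    (Real.rpow_le_rpow_of_exponent_le hp1 (by linarith)).trans hL1
  have ht3 : (p : ℝ) ^ (1 / 3 : ℝ) ≤ orderOf g := hL1'.trans hL1t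
  have ht0 : (0 : ℝ) < orderOf g := lt_of_lt_of_le (by positivity) ht3
  have ht00 : orderOf g ≠ 0 := by
    intro h
    rw [h] at ht0
    simp at ht0
  have : NeZero (orderOf g) := ⟨ht00⟩
  have hL1pos : (0 : ℝ) < L₁ := lt_of_lt_of_le (by positivity) hL1
  have hL2pos : (0 : ℝ) < L₂ := lt_of_lt_of_le (by positivity) hL2
  have hpe : (p : ℝ) ^ (ε / 24) ≤ (p : ℝ) ^ (1 / 3 + ε / 2) :=
    Real.rpow_le_rpow_of_exponent_le hp1 (by linarith)
  have h3 : (p : ℝ) ^ (1 / 3 : ℝ) ≤ p := by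
    calc (p : ℝ) ^ (1 / 3 : ℝ) ≤ (p : ℝ) ^ (1 : ℝ) :=
          Real.rpow_le_rpow_of_exponent_le hp1 (by norm_num)
      _ = p := Real.rpow_one _
  have hTeq : ((range (orderOf g)).card : ℝ) * (((L₁ : ℝ) / orderOf g) * ((L₂ : ℝ) / p)) =
      L₁ * L₂ / p := by
    rw [card_range]
    field_simp
  -- the bias
  have hbias : ∀ h₁ : ZMod (orderOf g), ∀ a : ZMod p, a ≠ 0 →
      ‖TW g h₁ a‖ ≤ L₁ * L₂ / p * (p : ℝ) ^ (-(ε / 24)) := by
    intro h₁ a ha
    have hsq := TW_sqrt g h₁ ha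
    have hsq' : ‖TW g h₁ a‖ ≤ (p : ℝ) ^ (1 / 2 : ℝ) := by
      rw [← Real.sqrt_eq_rpow]
      exact Real.le_sqrt_of_sq_le hsq
    rcases b3 with b3 | ⟨b3, b4, b5⟩
    · refine hsq'.trans ?_
      calc (p : ℝ) ^ (1 / 2 : ℝ) ≤ (p : ℝ) ^ (1 / 2 + ε + -(ε / 24)) :=
            Real.rpow_le_rpow_of_exponent_le hp1 (by linarith)
        _ = (p : ℝ) ^ (3 / 2 + ε) / p * (p : ℝ) ^ (-(ε / 24)) := by
            rw [← Real.rpow_sub_one hp0.ne', ← Real.rpow_add hp0]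
            congr 1
            ring
        _ ≤ _ := by gcongr
    · have key : orderOf g * (p : ℝ) ^ (-(13 * ε / 24)) ≤
          L₁ * L₂ / p * (p : ℝ) ^ (-(ε / 24)) := by
        have e1 : (p : ℝ) ^ (1 - ε / 4) / p = (p : ℝ) ^ (-(ε / 4)) := by
          rw [← Real.rpow_sub_one hp0.ne']; congr 1; ring
        calc orderOf g * (p : ℝ) ^ (-(13 * ε / 24)) =
              orderOf g * (p : ℝ) ^ (-(ε / 4)) * (p : ℝ) ^ (-(ε / 4)) * (p : ℝ) ^ (-(ε / 24)) := by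
                rw [mul_assoc, mul_assoc, ← Real.rpow_add hp0, ← Real.rpow_add hp0]
                congr 2
                ring
          _ = (orderOf g * (p : ℝ) ^ (-(ε / 4))) * (p : ℝ) ^ (1 - ε / 4) / p *
                (p : ℝ) ^ (-(ε / 24)) := by rw [← e1]; ring
          _ ≤ _ := by gcongr
      refine le_trans ?_ key
      by_cases hcase : orderOf g ^ 4 < p ^ 3
      · have h4 := TW_four g h₁ ha hcase
        set t : ℝ := ((orderOf g : ℕ) : ℝ) with ht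
        have h5 : 8 * (p : ℝ) * t ^ (5 / 3 : ℝ) ≤ (t * (p : ℝ) ^ (-(13 * ε / 24))) ^ 4 := by
          have e1 : (t * (p : ℝ) ^ (-(13 * ε / 24))) ^ 4 =
              t ^ (5 / 3 : ℝ) * (t ^ (7 / 3 : ℝ) * (p : ℝ) ^ (-(13 * ε / 6))) := by
            rw [mul_pow, ← mul_assoc, ← Real.rpow_add ht0, ← Real.rpow_natCast,
              ← Real.rpow_natCast, ← Real.rpow_mul hp0.le]
            congr 2
            · norm_num
            · push_cast; ring
          rw [e1]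
          have e2 : (p : ℝ) ^ (1 + 7 * ε / 3) ≤ t ^ (7 / 3 : ℝ) := by
            calc (p : ℝ) ^ (1 + 7 * ε / 3) = ((p : ℝ) ^ (3 / 7 + ε)) ^ (7 / 3 : ℝ) := by
                  rw [← Real.rpow_mul hp0.le]
                  congr 1
                  ring
              _ ≤ _ := Real.rpow_le_rpow (by positivity) b3 (by norm_num)
          have e3 : 8 * (p : ℝ) ≤ t ^ (7 / 3 : ℝ) * (p : ℝ) ^ (-(13 * ε / 6)) := by
            calc 8 * (p : ℝ) ≤ (p : ℝ) ^ (ε / 6) * p := by gcongr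
              _ = (p : ℝ) ^ (1 + 7 * ε / 3) * (p : ℝ) ^ (-(13 * ε / 6)) := by
                rw [← Real.rpow_add_one hp0.ne', ← Real.rpow_add hp0]
                congr 1
                ring
              _ ≤ _ := by gcongr
          calc 8 * (p : ℝ) * t ^ (5 / 3 : ℝ) = t ^ (5 / 3 : ℝ) * (8 * (p : ℝ)) := by ring
            _ ≤ _ := by gcongr
        exact (pow_le_pow_iff_left₀ (norm_nonneg _) (by positivity) (by norm_num)).1 (h4.trans h5)
      · push Not at hcase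
        have hcase' : (p : ℝ) ^ (3 : ℕ) ≤ (orderOf g : ℝ) ^ 4 := by exact_mod_cast hcase
        have h4 : (p : ℝ) ^ (3 / 4 : ℝ) ≤ orderOf g := by
          have h5 : ((p : ℝ) ^ (3 / 4 : ℝ)) ^ 4 ≤ (orderOf g : ℝ) ^ 4 := by
            refine le_trans (le_of_eq ?_) hcase'
            rw [← Real.rpow_natCast, ← Real.rpow_natCast, ← Real.rpow_mul hp0.le]
            congr 1
            norm_num
          exact (pow_le_pow_iff_left₀ (by positivity) (by positivity) (by norm_num)).1 h5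
        refine hsq'.trans ?_
        calc (p : ℝ) ^ (1 / 2 : ℝ) ≤ (p : ℝ) ^ (3 / 4 + -(13 * ε / 24)) :=
              Real.rpow_le_rpow_of_exponent_le hp1 (by linarith)
          _ = (p : ℝ) ^ (3 / 4 : ℝ) * (p : ℝ) ^ (-(13 * ε / 24)) := Real.rpow_add hp0 _ _
          _ ≤ _ := by gcongr
  have h := hp ℕ (range (orderOf g)) (orderOf g) p (fun x => x) (fun x => (b * g ^ x).val)
    u₁ L₁ u₂ L₂ ht3 h3 htp' le_rfl (fun x hx => mem_range.1 hx) (fun x _ => ZMod.val_lt _) b1 b2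
    (hpe.trans hL1) (hpe.trans hL2) (by
      intro h₁ h₂ hh
      have e1 : ∑ x ∈ range (orderOf g), (ZMod.stdAddChar (h₁ * ((x : ℕ) : ZMod (orderOf g))) : ℂ) *
          ZMod.stdAddChar (h₂ * (((b * g ^ x).val : ℕ) : ZMod p)) = TW g h₁ (h₂ * b) := by
        unfold TW
        refine sum_congr rfl fun x _ => ?_
        rw [ZMod.natCast_zmod_val, mul_assoc]
      show ‖∑ x ∈ range (orderOf g), (ZMod.stdAddChar (h₁ * ((x : ℕ) : ZMod (orderOf g))) : ℂ) *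
          ZMod.stdAddChar (h₂ * (((b * g ^ x).val : ℕ) : ZMod p))‖ ≤ _
      rw [e1, hTeq]
      by_cases h2 : h₂ = 0
      · have h1' : h₁ ≠ 0 := by
          rcases hh with hh | hh
          · exact hh
          · exact absurd h2 hh
        rw [h2, zero_mul, TW_zero g h₁ h1', norm_zero]
        positivity
      · exact hbias h₁ _ (mul_ne_zero h2 hb))
  refine le_trans ?_ h
  rw [hTeq, Real.rpow_neg hp0.le, ← div_eq_mul_inv, div_div]
  apply div_le_div_of_nonneg_left (by positivity) (by positivity)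
  rw [← Real.rpow_one_add' hp0.le (by positivity)]
  exact Real.rpow_le_rpow_of_exponent_le hp1 (by linarith)

end Pool.Agent.Q130.PV
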