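import Pool.Agent.Q130.PV.Low
import Pool.Agent.H442R2.KF.Weil
import Pool.Agent.Y943.Fu.Sum

/-! # Twisted exponential sums over subgroups -/

set_option autoImplicit false

open Finset Filter

namespace Pool.Agent.Q130.PV

open Pool.Agent.Y943.Fu
open scoped ComplexConjugate

section

variable {p : ℕ} [Fact p.Prime]

theorem norm_sq_tw (C : ZMod p → ℂ) (a : ZMod p) :
    ((‖∑ z, C z * ZMod.stdAddChar (a * z)‖ ^ 2 : ℝ) : ℂ) =
      ∑ y : ZMod p, (∑ z, C z * conj (C (z - y))) * ZMod.stdAddChar (a * y) := by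
  rw [← Complex.normSq_eq_norm_sq, ← Complex.mul_conj, map_sum, Finset.sum_mul_sum]
  have h1 : ∀ z w : ZMod p, C z * ZMod.stdAddChar (a * z) * conj (C w * ZMod.stdAddChar (a * w)) =
      C z * conj (C w) * ZMod.stdAddChar (N := p) (a * (z - w)) := by
    intro z w
    rw [map_mul (starRingEnd ℂ), ← AddChar.map_neg_eq_conj, mul_sub, sub_eq_add_neg,
      AddChar.map_add_eq_mul]
    ring
  simp_rw [h1]
  have h2 : ∀ z : ZMod p, ∑ w : ZMod p, C z * conj (C w) * ZMod.stdAddChar (N := p) (a * (z - w)) =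
      ∑ y : ZMod p, C z * conj (C (z - y)) * ZMod.stdAddChar (a * y) := by
    intro z
    rw [← Equiv.sum_comp (Equiv.subLeft z)]
    refine sum_congr rfl fun y _ => ?_
    simp only [Equiv.subLeft_apply, sub_sub_cancel]
  simp_rw [h2]
  rw [sum_comm]
  refine sum_congr rfl fun y _ => ?_
  rw [sum_mul]

theorem fourth_tw (g : ZMod p) (C : ZMod p → ℂ)
    (hC : ∀ z, ‖C z‖ ≤ if z ∈ HH g then 1 else 0) :
    ∑ a : ZMod p, ‖∑ z, C z * ZMod.stdAddChar (a * z)‖ ^ 4 ≤ p * ∑ z, rp g z ^ 2 := by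
  have h1 : ∀ a : ZMod p, ‖∑ z, C z * ZMod.stdAddChar (a * z)‖ ^ 4 =
      ‖∑ y : ZMod p, (∑ z, C z * conj (C (z - y))) * ZMod.stdAddChar (a * y)‖ ^ 2 := by
    intro a
    rw [← norm_sq_tw C a, Complex.norm_real, Real.norm_eq_abs, sq_abs, ← pow_mul]
  simp_rw [h1]
  rw [parseval]
  apply mul_le_mul_of_nonneg_left _ (Nat.cast_nonneg _)
  apply sum_le_sum
  intro y _
  apply pow_le_pow_left₀ (norm_nonneg _)
  have h2 : rp g y = ∑ z : ZMod p, if (z ∈ HH g ∧ z - y ∈ HH g) then (1 : ℝ) else 0 := by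
    unfold rp
    rw [Finset.sum_boole]
    congr 1
    apply card_bij' (fun w _ => w.1) (fun z _ => (z, z - y))
    · intro w hw
      rw [mem_filter, mem_product] at hw
      rw [mem_filter]
      refine ⟨mem_univ _, hw.1.1, ?_⟩
      have : w.1 - y = w.2 := by rw [← hw.2]; ring
      rw [this]
      exact hw.1.2
    · intro z hz
      rw [mem_filter] at hz
      rw [mem_filter, mem_product]
      exact ⟨hz.2, by ring⟩
    · intro w hw
      rw [mem_filter, mem_product] at hw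
      apply Prod.ext
      · rfl
      · show w.1 - y = w.2
        rw [← hw.2]; ring
    · intro z _
      rfl
  rw [h2]
  refine (norm_sum_le _ _).trans (sum_le_sum fun z _ => ?_)
  rw [norm_mul, RCLike.norm_conj]
  have e1 := hC z
  have e2 := hC (z - y)
  by_cases k1 : z ∈ HH g
  · by_cases k2 : z - y ∈ HH g
    · rw [if_pos k1] at e1
      rw [if_pos k2] at e2
      rw [if_pos ⟨k1, k2⟩]
      calc ‖C z‖ * ‖C (z - y)‖ ≤ 1 * 1 := mul_le_mul e1 e2 (norm_nonneg _) zero_le_one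
        _ = 1 := one_mul _
    · rw [if_neg k2] at e2
      have : ‖C (z - y)‖ = 0 := le_antisymm e2 (norm_nonneg _)
      rw [this, mul_zero, if_neg (fun h => k2 h.2)]
  · rw [if_neg k1] at e1
    have : ‖C z‖ = 0 := le_antisymm e1 (norm_nonneg _)
    rw [this, zero_mul, if_neg (fun h => k1 h.1)]

theorem second_tw (g : ZMod p) (C : ZMod p → ℂ)
    (hC : ∀ z, ‖C z‖ ≤ if z ∈ HH g then 1 else 0) :
    ∑ a : ZMod p, ‖∑ z, C z * ZMod.stdAddChar (a * z)‖ ^ 2 ≤ p * orderOf g := by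
  rw [parseval]
  apply mul_le_mul_of_nonneg_left _ (Nat.cast_nonneg _)
  rw [← card_HH g]
  calc ∑ z, ‖C z‖ ^ 2 ≤ ∑ z : ZMod p, if z ∈ HH g then (1 : ℝ) else 0 := by
        apply sum_le_sum
        intro z _
        have e1 := hC z
        have e0 := norm_nonneg (C z)
        split_ifs at e1 ⊢
        · nlinarith
        · nlinarith
    _ = _ := by simp

/-- the twisted sum -/
noncomputable def TW (g : ZMod p) [NeZero (orderOf g)] (h : ZMod (orderOf g)) (a : ZMod p) : ℂ :=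
  ∑ l ∈ range (orderOf g), ZMod.stdAddChar (h * ((l : ℕ) : ZMod (orderOf g))) *
    ZMod.stdAddChar (a * g ^ l)

variable (g : ZMod p) [NeZero (orderOf g)]

theorem TW_eq (h : ZMod (orderOf g)) : ∃ C : ZMod p → ℂ,
    (∀ z, ‖C z‖ ≤ if z ∈ HH g then 1 else 0) ∧
    ∀ a, TW g h a = ∑ z, C z * ZMod.stdAddChar (a * z) := by
  classical
  refine ⟨fun z => ∑ l ∈ range (orderOf g), if g ^ l = z then
    ZMod.stdAddChar (h * ((l : ℕ) : ZMod (orderOf g))) else 0, ?_, ?_⟩
  · intro z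
    by_cases hz : z ∈ HH g
    · rw [if_pos hz]
      have hz' := hz
      unfold HH at hz'
      obtain ⟨l, hl, rfl⟩ := mem_image.1 hz'
      show ‖∑ l' ∈ range (orderOf g), if g ^ l' = g ^ l then
        (ZMod.stdAddChar (h * ((l' : ℕ) : ZMod (orderOf g))) : ℂ) else 0‖ ≤ 1
      rw [sum_eq_single l]
      · rw [if_pos rfl, AddChar.norm_apply]
      · intro b hb hbl
        rw [if_neg]
        intro h2
        exact hbl (inj_pow g (by simpa using hb) (by simpa using hl) h2)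
      · intro h2; exact absurd hl h2
    · rw [if_neg hz]
      show ‖∑ l' ∈ range (orderOf g), if g ^ l' = z then
        (ZMod.stdAddChar (h * ((l' : ℕ) : ZMod (orderOf g))) : ℂ) else 0‖ ≤ 0
      rw [sum_eq_zero, norm_zero]
      intro l hl
      rw [if_neg]
      intro h2
      apply hz
      unfold HH
      exact mem_image.2 ⟨l, hl, h2⟩
  · intro a
    unfold TW
    simp_rw [sum_mul]
    rw [sum_comm]
    refine sum_congr rfl fun l _ => ?_
    rw [sum_eq_single (g ^ l)]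
    · rw [if_pos rfl]
    · intro b _ hb
      rw [if_neg (Ne.symm hb), zero_mul]
    · intro h2; exact absurd (mem_univ _) h2

theorem TW_shift (h : ZMod (orderOf g)) (a : ZMod p) : ‖TW g h (a * g)‖ = ‖TW g h a‖ := by
  set F : ℕ → ℂ := fun l => ZMod.stdAddChar (h * ((l : ℕ) : ZMod (orderOf g))) *
    ZMod.stdAddChar (a * g ^ l) with hF
  have h1 : ∑ l ∈ range (orderOf g), F (l + 1) = ∑ l ∈ range (orderOf g), F l := by
    have e1 := sum_range_succ F (orderOf g)
    have e2 := sum_range_succ' F (orderOf g)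
    have e3 : F (orderOf g) = F 0 := by
      rw [hF]
      simp [pow_orderOf_eq_one]
    rw [e1, e3] at e2
    exact (add_right_cancel e2).symm
  have h2 : ∑ l ∈ range (orderOf g), F (l + 1) = ZMod.stdAddChar h * TW g h (a * g) := by
    unfold TW
    rw [mul_sum]
    refine sum_congr rfl fun l _ => ?_
    rw [hF]
    show ZMod.stdAddChar (h * (((l + 1 : ℕ) : ℕ) : ZMod (orderOf g))) *
      ZMod.stdAddChar (a * g ^ (l + 1)) = _
    have e1 : h * (((l + 1 : ℕ) : ℕ) : ZMod (orderOf g)) = h + h * ((l : ℕ) : ZMod (orderOf g)) := by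
      push_cast; ring
    have e2 : a * g ^ (l + 1) = a * g * g ^ l := by rw [pow_succ]; ring
    rw [e1, e2, AddChar.map_add_eq_mul]
    ring
  have h3 : ‖TW g h a‖ = ‖(ZMod.stdAddChar h : ℂ) * TW g h (a * g)‖ := by
    rw [← h2, h1]
    rfl
  rw [h3, norm_mul, AddChar.norm_apply, one_mul]

theorem TW_shift_pow (h : ZMod (orderOf g)) (a : ZMod p) (j : ℕ) :
    ‖TW g h (a * g ^ j)‖ = ‖TW g h a‖ := by
  induction j with
  | zero => simp
  | succ j ih => rw [pow_succ, ← mul_assoc, TW_shift, ih]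

theorem TW_order (h : ZMod (orderOf g)) {a : ZMod p} (ha : a ≠ 0) (k : ℕ) :
    (orderOf g : ℝ) * ‖TW g h a‖ ^ k ≤ ∑ a' : ZMod p, ‖TW g h a'‖ ^ k := by
  have hinj : Set.InjOn (fun j => a * g ^ j) (range (orderOf g) : Set ℕ) := fun i hi j hj h =>
    inj_pow g hi hj (mul_left_cancel₀ ha h)
  have h0 : ∀ j ∈ range (orderOf g), ‖TW g h (a * g ^ j)‖ ^ k = ‖TW g h a‖ ^ k := fun j _ => by
    rw [TW_shift_pow]
  calc (orderOf g : ℝ) * ‖TW g h a‖ ^ k = ∑ j ∈ range (orderOf g), ‖TW g h (a * g ^ j)‖ ^ k := by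
        rw [sum_congr rfl h0, sum_const, card_range, nsmul_eq_mul]
    _ = ∑ a' ∈ (range (orderOf g)).image (fun j => a * g ^ j), ‖TW g h a'‖ ^ k := by
        rw [sum_image hinj]
    _ ≤ _ := sum_le_sum_of_subset_of_nonneg (subset_univ _) fun _ _ _ => by positivity

/-- the square root bound -/
theorem TW_sqrt (h : ZMod (orderOf g)) {a : ZMod p} (ha : a ≠ 0) : ‖TW g h a‖ ^ 2 ≤ p := by
  obtain ⟨C, hC, hT⟩ := TW_eq g h
  have h1 := TW_order g h ha 2
  have h2 := second_tw g C hC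
  simp_rw [← hT] at h2
  have ht : (0 : ℝ) < orderOf g := by exact_mod_cast Nat.pos_of_ne_zero (NeZero.ne (orderOf g))
  have h3 := h1.trans h2
  rw [mul_comm (p : ℝ)] at h3
  exact le_of_mul_le_mul_left h3 ht

/-- the fourth moment bound -/
theorem TW_four (h : ZMod (orderOf g)) {a : ZMod p} (ha : a ≠ 0) (hc : orderOf g ^ 4 < p ^ 3) :
    ‖TW g h a‖ ^ 4 ≤ 8 * p * (orderOf g : ℝ) ^ (5 / 3 : ℝ) := by
  obtain ⟨C, hC, hT⟩ := TW_eq g h
  have h1 := TW_order g h ha 4
  have h2 := fourth_tw g C hC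
  simp_rw [← hT] at h2
  have hg : 1 ≤ orderOf g := Nat.one_le_iff_ne_zero.2 (NeZero.ne (orderOf g))
  have h4 := energy_le hg hc
  have ht : (0 : ℝ) < orderOf g := by exact_mod_cast hg
  set t : ℝ := ((orderOf g : ℕ) : ℝ) with htd
  have h3 : t * ‖TW g h a‖ ^ 4 ≤ t * (8 * p * t ^ (5 / 3 : ℝ)) := by
    calc t * ‖TW g h a‖ ^ 4 ≤ p * ∑ z, rp g z ^ 2 := h1.trans h2
      _ ≤ p * (8 * (t ^ (2 / 3 : ℝ) * t ^ 2)) := mul_le_mul_of_nonneg_left h4 (Nat.cast_nonneg _)
      _ = t * (8 * p * t ^ (5 / 3 : ℝ)) := by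
        have e1 : t ^ (5 / 3 : ℝ) = t ^ (2 / 3 : ℝ) * t := by
          rw [← Real.rpow_add_one ht.ne']
          norm_num
        rw [e1]
        ring
  exact le_of_mul_le_mul_left h3 ht

theorem TW_zero (h : ZMod (orderOf g)) (hh : h ≠ 0) : TW g h 0 = 0 := by
  unfold TW
  have h1 : ∑ w : ZMod (orderOf g), (ZMod.stdAddChar (w * h) : ℂ) = 0 := by
    have := AddChar.sum_mulShift (ψ := (ZMod.stdAddChar : AddChar (ZMod (orderOf g)) ℂ)) h
      (ZMod.isPrimitive_stdAddChar _)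
    rw [this, if_neg hh]
    simp
  rw [← h1]
  symm
  refine sum_bij' (fun w _ => w.val) (fun v _ => (v : ZMod (orderOf g))) ?_ ?_ ?_ ?_ ?_
  · intro w _; exact mem_range.2 (ZMod.val_lt w)
  · intro v _; exact mem_univ _
  · intro w _; exact ZMod.natCast_zmod_val w
  · intro v hv; exact ZMod.val_natCast_of_lt (mem_range.1 hv)
  · intro w _
    show ZMod.stdAddChar (w * h) = ZMod.stdAddChar (h * ((w.val : ℕ) : ZMod (orderOf g))) *
      ZMod.stdAddChar (0 * g ^ w.val)
    rw [ZMod.natCast_zmod_val, zero_mul, AddChar.map_zero_eq_one, mul_one, mul_comm]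

end

end Pool.Agent.Q130.PV
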